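import Mathlib

/-!
# Vectors with small positive correlations: half of them satisfy a large sieve inequality
-/

open Finset

namespace MP225LS

/-- Let `Γ` be a positive semidefinite matrix with entries `≤ A` off the diagonal and `≤ B` on the
diagonal, `|ι| A ≤ B`.  On at least half of the indices the quadratic form is at most
`6 B ∑ c_i²`. -/
theorem half_large_sieve {ι : Type*} [Fintype ι] [DecidableEq ι] (Γ : ι → ι → ℝ)
    (hsym : ∀ i j, Γ i j = Γ j i) (A B : ℝ) (hA : 0 ≤ A) (hB0 : 0 < B)
    (hoff : ∀ i j, i ≠ j → Γ i j ≤ A) (hdiag : ∀ i, Γ i i ≤ B)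
    (hpos : ∀ c : ι → ℝ, 0 ≤ ∑ i, ∑ j, c i * c j * Γ i j)
    (hNA : (Fintype.card ι : ℝ) * A ≤ B) :
    ∃ F : Finset ι, Fintype.card ι ≤ 2 * F.card ∧
      ∀ c : ι → ℝ, (∀ i, i ∉ F → c i = 0) →
        ∑ i, ∑ j, c i * c j * Γ i j ≤ 6 * B * ∑ i, c i ^ 2 := by
  classical
  set N : ℝ := (Fintype.card ι : ℝ) with hN
  have hN0 : 0 ≤ N := by positivity
  -- g i j for i ≠ j
  let g : ι → ι → ℝ := fun i j => if i = j then 0 else A - Γ i j
  have hg0 : ∀ i j, 0 ≤ g i j := by
    intro i j
    by_cases h : i = j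
    · simp [g, h]
    · simp only [g, h, if_false]; linarith [hoff i j h]
  have hgsym : ∀ i j, g i j = g j i := by
    intro i j
    by_cases h : i = j
    · simp [g, h]
    · have h' : j ≠ i := fun e => h e.symm
      simp only [g, h, h', if_false, hsym i j]
  have hdiag0 : ∀ i, 0 ≤ Γ i i := by
    intro i
    have h := hpos (fun k => if k = i then 1 else 0)
    simpa using h
  -- total
  have htot : ∑ i, ∑ j, g i j ≤ 2 * N * B := by
    have h := hpos (fun _ => 1)
    simp only [one_mul] at h
    have e : ∀ i, ∑ j, g i j + ∑ j, Γ i j ≤ N * A + B := by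
      intro i
      rw [← Finset.sum_add_distrib]
      have : ∀ j, g i j + Γ i j ≤ A + (if i = j then B else 0) := by
        intro j
        by_cases hij : i = j
        · subst hij; simp only [g, if_true]; linarith [hdiag i]
        · simp only [g, hij, if_false]; linarith
      refine (Finset.sum_le_sum fun j _ => this j).trans ?_
      rw [Finset.sum_add_distrib, Finset.sum_const, Finset.card_univ, nsmul_eq_mul,
        Finset.sum_ite_eq]
      simp [hN]
    have h2 : ∑ i, (∑ j, g i j + ∑ j, Γ i j) ≤ ∑ _i : ι, (N * A + B) :=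
      Finset.sum_le_sum fun i _ => e i
    rw [Finset.sum_add_distrib, Finset.sum_const, Finset.card_univ, nsmul_eq_mul, ← hN] at h2
    nlinarith
  let F : Finset ι := Finset.univ.filter fun i => ∑ j, g i j ≤ 4 * B
  refine ⟨F, ?_, ?_⟩
  · -- counting
    have hbad : ((Finset.univ \ F).card : ℝ) * (4 * B) ≤ 2 * N * B := by
      calc ((Finset.univ \ F).card : ℝ) * (4 * B) = ∑ _i ∈ Finset.univ \ F, 4 * B := by
            rw [Finset.sum_const, nsmul_eq_mul]
        _ ≤ ∑ i ∈ Finset.univ \ F, ∑ j, g i j := by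
            refine Finset.sum_le_sum fun i hi => ?_
            have : ¬ (∑ j, g i j ≤ 4 * B) := by
              intro hle
              simp only [Finset.mem_sdiff, Finset.mem_univ, true_and, F, Finset.mem_filter] at hi
              exact hi hle
            exact (not_le.mp this).le
        _ ≤ ∑ i, ∑ j, g i j := Finset.sum_le_sum_of_subset_of_nonneg (Finset.subset_univ _)
            fun i _ _ => Finset.sum_nonneg fun j _ => hg0 i j
        _ ≤ _ := htot
    have hcard : (Finset.univ \ F).card + F.card = Fintype.card ι := by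
      rw [Finset.card_sdiff_add_card_eq_card (Finset.subset_univ _), Finset.card_univ]
    have h3 : ((Finset.univ \ F).card : ℝ) * 2 ≤ N := by
      have : ((Finset.univ \ F).card : ℝ) * 2 * (2 * B) ≤ N * (2 * B) := by nlinarith
      exact le_of_mul_le_mul_right this (by linarith)
    have h4 : (Finset.univ \ F).card * 2 ≤ Fintype.card ι := by
      rw [hN] at h3; exact_mod_cast h3
    omega
  · intro c hc
    -- Schur test
    have habs : ∀ i j, c i * c j * Γ i j ≤
        (c i ^ 2 + c j ^ 2) / 2 * (g i j + A + if i = j then B else 0) := by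
      intro i j
      have h1 : |c i * c j| ≤ (c i ^ 2 + c j ^ 2) / 2 := by
        rw [abs_le]; constructor <;> nlinarith [sq_nonneg (c i - c j), sq_nonneg (c i + c j)]
      have h2 : |Γ i j| ≤ g i j + A + if i = j then B else 0 := by
        by_cases hij : i = j
        · subst hij
          simp only [g, if_true, zero_add]
          rw [abs_of_nonneg (hdiag0 i)]; linarith [hdiag i]
        · simp only [g, hij, if_false, add_zero]
          rw [abs_le]; constructor <;> linarith [hoff i j hij]
      calc c i * c j * Γ i j ≤ |c i * c j * Γ i j| := le_abs_self _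
        _ = |c i * c j| * |Γ i j| := abs_mul _ _
        _ ≤ _ := mul_le_mul h1 h2 (abs_nonneg _) (by positivity)
    -- reduce to half sums
    have hrow : ∀ i ∈ F, ∑ j ∈ F, (g i j + A + if i = j then B else 0) ≤ 6 * B := by
      intro i hi
      have hi' : ∑ j, g i j ≤ 4 * B := by simpa [F] using hi
      rw [Finset.sum_add_distrib, Finset.sum_add_distrib, Finset.sum_const, nsmul_eq_mul,
        Finset.sum_ite_eq]
      simp only [hi, if_true]
      have h1 : ∑ j ∈ F, g i j ≤ ∑ j, g i j :=
        Finset.sum_le_sum_of_subset_of_nonneg (Finset.subset_univ _) fun j _ _ => hg0 i j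
      have h2 : (F.card : ℝ) * A ≤ N * A := by
        refine mul_le_mul_of_nonneg_right ?_ hA
        rw [hN]; exact_mod_cast (Finset.card_le_univ F)
      linarith
    have hK0 : ∀ i j, 0 ≤ g i j + A + if i = j then B else 0 := by
      intro i j
      have := hg0 i j
      split_ifs <;> linarith
    have hKsym : ∀ i j, (g i j + A + if i = j then B else 0) =
        g j i + A + if j = i then B else 0 := by
      intro i j
      rw [hgsym i j]
      by_cases hij : i = j
      · subst hij; rfl
      · have h' : j ≠ i := fun e => hij e.symm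
        simp [hij, h']
    have hsuppi : ∀ i, i ∉ F → ∑ j, c i * c j * Γ i j = 0 := by
      intro i hi; simp [hc i hi]
    have e1 : ∑ i, ∑ j, c i * c j * Γ i j = ∑ i ∈ F, ∑ j ∈ F, c i * c j * Γ i j := by
      rw [← Finset.sum_subset (Finset.subset_univ F) fun i _ hi => hsuppi i hi]
      refine Finset.sum_congr rfl fun i _ => ?_
      rw [← Finset.sum_subset (Finset.subset_univ F) fun j _ hj => ?_]
      simp [hc j hj]
    rw [e1]
    have e2 : ∑ i ∈ F, ∑ j ∈ F, (c i ^ 2 + c j ^ 2) / 2 * (g i j + A + if i = j then B else 0) =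
        ∑ i ∈ F, c i ^ 2 * ∑ j ∈ F, (g i j + A + if i = j then B else 0) := by
      have s1 : ∑ i ∈ F, ∑ j ∈ F, c j ^ 2 * (g i j + A + if i = j then B else 0) =
          ∑ i ∈ F, ∑ j ∈ F, c i ^ 2 * (g i j + A + if i = j then B else 0) := by
        rw [Finset.sum_comm]
        refine Finset.sum_congr rfl fun i _ => Finset.sum_congr rfl fun j _ => ?_
        rw [hKsym j i]
      have s2 : ∑ i ∈ F, ∑ j ∈ F,
          (c i ^ 2 + c j ^ 2) / 2 * (g i j + A + if i = j then B else 0) =
          (∑ i ∈ F, ∑ j ∈ F, c i ^ 2 * (g i j + A + if i = j then B else 0)) / 2 +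
          (∑ i ∈ F, ∑ j ∈ F, c j ^ 2 * (g i j + A + if i = j then B else 0)) / 2 := by
        rw [Finset.sum_div, Finset.sum_div, ← Finset.sum_add_distrib]
        refine Finset.sum_congr rfl fun i _ => ?_
        rw [Finset.sum_div, Finset.sum_div, ← Finset.sum_add_distrib]
        refine Finset.sum_congr rfl fun j _ => ?_
        ring
      rw [s2, s1, add_halves]
      refine Finset.sum_congr rfl fun i _ => ?_
      rw [Finset.mul_sum]
    calc ∑ i ∈ F, ∑ j ∈ F, c i * c j * Γ i j
        ≤ ∑ i ∈ F, ∑ j ∈ F, (c i ^ 2 + c j ^ 2) / 2 * (g i j + A + if i = j then B else 0) :=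
          Finset.sum_le_sum fun i _ => Finset.sum_le_sum fun j _ => habs i j
      _ = ∑ i ∈ F, c i ^ 2 * ∑ j ∈ F, (g i j + A + if i = j then B else 0) := e2
      _ ≤ ∑ i ∈ F, c i ^ 2 * (6 * B) :=
          Finset.sum_le_sum fun i hi => mul_le_mul_of_nonneg_left (hrow i hi) (sq_nonneg _)
      _ = 6 * B * ∑ i ∈ F, c i ^ 2 := by rw [← Finset.sum_mul, mul_comm]
      _ ≤ 6 * B * ∑ i, c i ^ 2 := by
          refine mul_le_mul_of_nonneg_left ?_ (by linarith)
          exact Finset.sum_le_sum_of_subset_of_nonneg (Finset.subset_univ _)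
            fun i _ _ => sq_nonneg _

/-- Consequence for a component `f` of the quadratic form. -/
theorem component_bound {ι : Type*} [Fintype ι] [DecidableEq ι] (Γ : ι → ι → ℝ) (K γ : ℝ)
    (hK : 0 ≤ K) (hγ : 0 < γ) (F : Finset ι) (f : ι → ℝ)
    (hF : ∀ c : ι → ℝ, (∀ i, i ∉ F → c i = 0) →
        ∑ i, ∑ j, c i * c j * Γ i j ≤ K * ∑ i, c i ^ 2)
    (hf : ∀ c : ι → ℝ, γ * (∑ i, c i * f i) ^ 2 ≤ ∑ i, ∑ j, c i * c j * Γ i j) :
    ∑ i ∈ F, f i ^ 2 ≤ K / γ := by
  classical
  set Z := ∑ i ∈ F, f i ^ 2 with hZ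
  have hZ0 : 0 ≤ Z := Finset.sum_nonneg fun i _ => sq_nonneg _
  let c : ι → ℝ := fun i => if i ∈ F then f i else 0
  have h1 := hF c (fun i hi => by simp [c, hi])
  have h2 := hf c
  have e1 : ∑ i, c i * f i = Z := by
    rw [hZ, ← Finset.sum_subset (Finset.subset_univ F)]
    · exact Finset.sum_congr rfl fun i hi => by simp [c, hi, sq]
    · intro i _ hi; simp [c, hi]
  have e2 : ∑ i, c i ^ 2 = Z := by
    rw [hZ, ← Finset.sum_subset (Finset.subset_univ F)]
    · exact Finset.sum_congr rfl fun i hi => by simp [c, hi]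
    · intro i _ hi; simp [c, hi]
  rw [e1] at h2
  rw [e2] at h1
  rw [le_div_iff₀ hγ]
  rcases hZ0.lt_or_eq with hpos | hzero
  · have : γ * Z * Z ≤ K * Z := by nlinarith
    have := le_of_mul_le_mul_right this hpos
    linarith
  · rw [← hzero, zero_mul]; exact hK

end MP225LS
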