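import Mathlib

/-!
# The resultant of two coprime monic polynomials over the integers of a number field
-/

open Polynomial Finset

namespace MP225LS

theorem prod_embeddings_ge {L : Type*} [Field L] [NumberField L] (x : L) (hx : IsIntegral ℤ x)
    (h0 : x ≠ 0) : (1 : ℝ) ≤ ∏ φ : L →+* ℂ, ‖φ x‖ := by
  have h1 : (algebraMap ℚ ℂ) (Algebra.norm ℚ x) = ∏ σ : L →ₐ[ℚ] ℂ, σ x :=
    Algebra.norm_eq_prod_embeddings ℚ ℂ x
  have h2 : ∏ σ : L →ₐ[ℚ] ℂ, σ x = ∏ φ : L →+* ℂ, φ x :=
    Fintype.prod_equiv (RingHom.equivRatAlgHom L ℂ).symm _ _ (fun σ => rfl)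
  have h3 : IsIntegral ℤ (Algebra.norm ℚ x) := Algebra.isIntegral_norm ℚ hx
  obtain ⟨z, hz⟩ := IsIntegrallyClosed.isIntegral_iff.mp h3
  have hz0 : z ≠ 0 := by
    rintro rfl
    rw [map_zero] at hz
    exact h0 ((Algebra.norm_eq_zero_iff).mp hz.symm)
  have h4 : ‖∏ φ : L →+* ℂ, φ x‖ = |(z : ℝ)| := by
    rw [← h2, ← h1, ← hz]
    simp
  rw [← norm_prod, h4]
  exact_mod_cast Int.one_le_abs hz0

/-- The sum of the logarithms of the distances of the roots of `G` and `H`, over all embeddings, is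
nonnegative. -/
theorem res_log {L : Type*} [Field L] [NumberField L] (G H : L[X]) (hG : G.Monic) (hH : H.Monic)
    (hGi : ∀ i, IsIntegral ℤ (G.coeff i)) (hHi : ∀ i, IsIntegral ℤ (H.coeff i))
    (hGs : G.Separable) (hHs : H.Separable) (hco : IsCoprime G H) :
    (∀ φ : L →+* ℂ, ∀ z ∈ (G.map φ).roots.toFinset, ∀ w ∈ (H.map φ).roots.toFinset, z ≠ w) ∧
    0 ≤ ∑ φ : L →+* ℂ, ∑ z ∈ (G.map φ).roots.toFinset,
      ∑ w ∈ (H.map φ).roots.toFinset, Real.log ‖z - w‖ := by
  set δ : L := resultant G H G.natDegree H.natDegree with hδ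
  have hdis : ∀ φ : L →+* ℂ, ∀ z ∈ (G.map φ).roots.toFinset, ∀ w ∈ (H.map φ).roots.toFinset,
      z ≠ w := by
    intro φ z hz w hw h
    subst h
    have h1 : IsCoprime (G.map φ) (H.map φ) := hco.map (mapRingHom φ)
    obtain ⟨u, v, huv⟩ := h1
    have h2 := congrArg (eval z) huv
    rw [Multiset.mem_toFinset, mem_roots (hG.map φ).ne_zero] at hz
    rw [Multiset.mem_toFinset, mem_roots (hH.map φ).ne_zero] at hw
    rw [eval_add, eval_mul, eval_mul, hz.eq_zero, hw.eq_zero, mul_zero, mul_zero, add_zero,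
      eval_one] at h2
    exact zero_ne_one h2
  refine ⟨hdis, ?_⟩
  have hδint : IsIntegral ℤ δ := by
    have hl : ∀ F : L[X], (∀ i, IsIntegral ℤ (F.coeff i)) →
        F ∈ lifts (algebraMap (integralClosure ℤ L) L) := by
      intro F hF
      rw [lifts_iff_coeff_lifts]
      intro i
      exact ⟨⟨F.coeff i, hF i⟩, rfl⟩
    obtain ⟨G₀, hG₀⟩ := (mem_lifts G).1 (hl G hGi)
    obtain ⟨H₀, hH₀⟩ := (mem_lifts H).1 (hl H hHi)
    have h1 : δ = algebraMap (integralClosure ℤ L) L
        (resultant G₀ H₀ G.natDegree H.natDegree) := by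
      rw [hδ, ← resultant_map_map, hG₀, hH₀]
    rw [h1]
    exact (resultant G₀ H₀ G.natDegree H.natDegree).2
  have key : ∀ φ : L →+* ℂ, (∑ z ∈ (G.map φ).roots.toFinset,
      ∑ w ∈ (H.map φ).roots.toFinset, Real.log ‖z - w‖ = Real.log ‖φ δ‖) ∧ φ δ ≠ 0 := by
    intro φ
    have hPm : (G.map φ).Monic := hG.map _
    have hQm : (H.map φ).Monic := hH.map _
    have hndP : (G.map φ).roots.Nodup := nodup_roots hGs.map
    have hndQ : (H.map φ).roots.Nodup := nodup_roots hHs.map
    have hrP : (G.map φ).roots.toFinset.val = (G.map φ).roots := by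
      rw [Multiset.toFinset_val]; exact Multiset.dedup_eq_self.2 hndP
    have hrQ : (H.map φ).roots.toFinset.val = (H.map φ).roots := by
      rw [Multiset.toFinset_val]; exact Multiset.dedup_eq_self.2 hndQ
    have hres : φ δ = ∏ z ∈ (G.map φ).roots.toFinset, ∏ w ∈ (H.map φ).roots.toFinset,
        (z - w) := by
      have h1 := resultant_eq_prod_roots_sub (G.map φ) (H.map φ) hPm hQm (IsAlgClosed.splits _)
        (IsAlgClosed.splits _)
      rw [hG.natDegree_map, hH.natDegree_map, resultant_map_map] at h1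
      rw [hδ, h1, ← Finset.prod_product', Finset.prod, Finset.product_val, hrP, hrQ]
    have hne : ∀ z ∈ (G.map φ).roots.toFinset, ∀ w ∈ (H.map φ).roots.toFinset,
        ‖z - w‖ ≠ 0 := fun z hz w hw => norm_ne_zero_iff.2 (sub_ne_zero.2 (hdis φ z hz w hw))
    have hδ0 : φ δ ≠ 0 := by
      rw [hres, Finset.prod_ne_zero_iff]
      intro z hz
      rw [Finset.prod_ne_zero_iff]
      intro w hw
      exact norm_ne_zero_iff.1 (hne z hz w hw)
    refine ⟨?_, hδ0⟩
    rw [hres, norm_prod, Real.log_prod]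
    · apply Finset.sum_congr rfl
      intro z hz
      rw [norm_prod, Real.log_prod]
      intro w hw
      exact hne z hz w hw
    · intro z hz
      rw [norm_ne_zero_iff, Finset.prod_ne_zero_iff]
      intro w hw
      exact norm_ne_zero_iff.1 (hne z hz w hw)
  rw [Finset.sum_congr rfl fun φ _ => (key φ).1]
  have hδ0 : δ ≠ 0 := by
    intro h
    obtain ⟨φ⟩ : Nonempty (L →+* ℂ) := inferInstance
    exact (key φ).2 (by rw [h, map_zero])
  rw [← Real.log_prod (fun φ _ => norm_ne_zero_iff.2 (key φ).2)]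
  exact Real.log_nonneg (prod_embeddings_ge δ hδint hδ0)

end MP225LS
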