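import Mathlib

/-!
# A lower bound for the power sums `∑ 2 cos (m θ_a)` of a finite family of angles
-/

open Finset

namespace MP225LS

/-- `S_m = ∑_a 2 cos (m θ_a)`. -/
noncomputable def Sm {A : Type*} (s : Finset A) (θ : A → ℝ) (m : ℕ) : ℝ :=
  ∑ a ∈ s, 2 * Real.cos (m * θ a)

lemma Sm_zero {A : Type*} (s : Finset A) (θ : A → ℝ) : Sm s θ 0 = 2 * s.card := by
  simp [Sm, mul_comm]

/-- The Dirichlet type sum `D = (∑_j cos jψ)^2 + (∑_j sin jψ)^2`. -/
noncomputable def Dq (M : ℕ) (ψ : ℝ) : ℝ :=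
  ∑ j ∈ range (M + 1), ∑ k ∈ range (M + 1), Real.cos (((j : ℝ) - k) * ψ)

lemma Dq_eq (M : ℕ) (ψ : ℝ) : Dq M ψ =
    (∑ j ∈ range (M + 1), Real.cos (j * ψ)) ^ 2 + (∑ j ∈ range (M + 1), Real.sin (j * ψ)) ^ 2 := by
  rw [Dq, sq, sq, Finset.sum_mul_sum, Finset.sum_mul_sum, ← Finset.sum_add_distrib]
  refine Finset.sum_congr rfl fun j _ => ?_
  rw [← Finset.sum_add_distrib]
  refine Finset.sum_congr rfl fun k _ => ?_
  rw [sub_mul, Real.cos_sub]

lemma Dq_nonneg (M : ℕ) (ψ : ℝ) : 0 ≤ Dq M ψ := by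
  rw [Dq_eq]; positivity

lemma Dq_zero (M : ℕ) : Dq M 0 = (M + 1) ^ 2 := by
  simp [Dq]; ring

lemma sum_abs_le (M : ℕ) (f : ℕ → ℝ) (hf : ∀ m, 0 ≤ f m) (j : ℕ) (hj : j ∈ range (M + 1)) :
    ∑ k ∈ range (M + 1), f ((j - k) + (k - j)) ≤ f 0 + 2 * ∑ m ∈ range M, f (m + 1) := by
  have hjM : j ≤ M := by simpa [Nat.lt_succ_iff] using hj
  have h1 : ∑ k ∈ range (M + 1), f ((j - k) + (k - j)) =
      ∑ k ∈ range j, f (j - k) + ∑ k ∈ range (M + 1 - j), f k := by
    rw [← Finset.sum_range_add_sum_Ico _ (show j ≤ M + 1 by omega), Finset.sum_Ico_eq_sum_range]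
    congr 1
    · refine Finset.sum_congr rfl fun k hk => ?_
      have : k < j := by simpa using hk
      congr 1; omega
    · refine Finset.sum_congr rfl fun k hk => ?_
      congr 1; omega
  have h2 : ∑ k ∈ range j, f (j - k) ≤ ∑ m ∈ range M, f (m + 1) := by
    rw [← Finset.sum_range_reflect]
    have : ∑ k ∈ range j, f (j - (j - 1 - k)) = ∑ k ∈ range j, f (k + 1) := by
      refine Finset.sum_congr rfl fun k hk => ?_
      have : k < j := by simpa using hk
      congr 1; omega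
    rw [this]
    exact Finset.sum_le_sum_of_subset_of_nonneg (Finset.range_mono hjM) fun i _ _ => hf _
  have h3 : ∑ k ∈ range (M + 1 - j), f k ≤ f 0 + ∑ m ∈ range M, f (m + 1) := by
    rw [add_comm (f 0), ← Finset.sum_range_succ']
    exact Finset.sum_le_sum_of_subset_of_nonneg (Finset.range_mono (by omega)) fun i _ _ => hf _
  rw [h1]; linarith

/-- **Lower bound.** -/
theorem fejer {A : Type*} (s : Finset A) (θ : A → ℝ) (M : ℕ) :
    (s.card : ℝ) * (M + 1) - 2 * (s.card : ℝ) ^ 2 ≤ ∑ m ∈ range M, Sm s θ (m + 1) ^ 2 := by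
  classical
  -- the double sum
  have h1 : ∑ a ∈ s, ∑ b ∈ s, (Dq M (θ a - θ b) + Dq M (θ a + θ b)) =
      ∑ j ∈ range (M + 1), ∑ k ∈ range (M + 1), Sm s θ ((j - k) + (k - j)) ^ 2 / 2 := by
    have e : ∀ j k : ℕ, Sm s θ ((j - k) + (k - j)) ^ 2 / 2 =
        ∑ a ∈ s, ∑ b ∈ s, (Real.cos (((j : ℝ) - k) * (θ a - θ b)) +
          Real.cos (((j : ℝ) - k) * (θ a + θ b))) := by
      intro j k
      have habs : ∀ t : ℝ, Real.cos ((((j - k) + (k - j) : ℕ) : ℝ) * t) =
          Real.cos (((j : ℝ) - k) * t) := by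
        intro t
        rcases le_total j k with h | h
        · have : (((j - k) + (k - j) : ℕ) : ℝ) = -((j : ℝ) - k) := by
            rw [Nat.sub_eq_zero_of_le h, zero_add, Nat.cast_sub h]; ring
          rw [this, neg_mul, Real.cos_neg]
        · have : (((j - k) + (k - j) : ℕ) : ℝ) = (j : ℝ) - k := by
            rw [Nat.sub_eq_zero_of_le h, add_zero, Nat.cast_sub h]
          rw [this]
      rw [Sm, sq, Finset.sum_mul_sum, Finset.sum_div]
      refine Finset.sum_congr rfl fun a _ => ?_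
      rw [Finset.sum_div]
      refine Finset.sum_congr rfl fun b _ => ?_
      rw [habs, habs, mul_sub, mul_add, Real.cos_sub, Real.cos_add]
      ring
    simp_rw [e]
    have e2 : ∀ a b : A, Dq M (θ a - θ b) + Dq M (θ a + θ b) =
        ∑ p ∈ range (M + 1) ×ˢ range (M + 1), (Real.cos (((p.1 : ℝ) - p.2) * (θ a - θ b)) +
          Real.cos (((p.1 : ℝ) - p.2) * (θ a + θ b))) := by
      intro a b
      rw [Finset.sum_product, Dq, Dq, ← Finset.sum_add_distrib]
      refine Finset.sum_congr rfl fun j _ => ?_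
      rw [← Finset.sum_add_distrib]
    simp_rw [e2]
    rw [← Finset.sum_product' s s, Finset.sum_comm,
      ← Finset.sum_product' (range (M + 1)) (range (M + 1))]
    refine Finset.sum_congr rfl fun p _ => ?_
    rw [← Finset.sum_product' s s]
  -- lower bound for the left side
  have h2 : (s.card : ℝ) * (M + 1) ^ 2 ≤
      ∑ a ∈ s, ∑ b ∈ s, (Dq M (θ a - θ b) + Dq M (θ a + θ b)) := by
    have : ∀ a ∈ s, ((M : ℝ) + 1) ^ 2 ≤ ∑ b ∈ s, (Dq M (θ a - θ b) + Dq M (θ a + θ b)) := by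
      intro a ha
      have h := Finset.single_le_sum
        (f := fun b => Dq M (θ a - θ b) + Dq M (θ a + θ b))
        (fun b _ => add_nonneg (Dq_nonneg M _) (Dq_nonneg M _)) ha
      refine le_trans ?_ h
      simp only [sub_self]
      rw [Dq_zero]
      linarith [Dq_nonneg M (θ a + θ a)]
    calc (s.card : ℝ) * (M + 1) ^ 2 = ∑ _a ∈ s, ((M : ℝ) + 1) ^ 2 := by
          rw [Finset.sum_const, nsmul_eq_mul]
      _ ≤ _ := Finset.sum_le_sum this
  -- upper bound for the right side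
  have h3 : ∑ j ∈ range (M + 1), ∑ k ∈ range (M + 1), Sm s θ ((j - k) + (k - j)) ^ 2 / 2 ≤
      (M + 1) * (2 * (s.card : ℝ) ^ 2 + ∑ m ∈ range M, Sm s θ (m + 1) ^ 2) := by
    have : ∀ j ∈ range (M + 1), ∑ k ∈ range (M + 1), Sm s θ ((j - k) + (k - j)) ^ 2 / 2 ≤
        2 * (s.card : ℝ) ^ 2 + ∑ m ∈ range M, Sm s θ (m + 1) ^ 2 := by
      intro j hj
      have h := sum_abs_le M (fun m => Sm s θ m ^ 2 / 2) (fun m => by positivity) j hj
      refine h.trans (le_of_eq ?_)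
      simp only [Sm_zero]
      rw [← Finset.sum_div]
      ring
    calc _ ≤ ∑ _j ∈ range (M + 1), (2 * (s.card : ℝ) ^ 2 + ∑ m ∈ range M, Sm s θ (m + 1) ^ 2) :=
          Finset.sum_le_sum this
      _ = _ := by rw [Finset.sum_const, nsmul_eq_mul, Finset.card_range]; push_cast; ring
  rw [h1] at h2
  have h4 := h2.trans h3
  have h5 : (0 : ℝ) < M + 1 := by positivity
  have h6 : (s.card : ℝ) * (M + 1) ≤ 2 * (s.card : ℝ) ^ 2 + ∑ m ∈ range M, Sm s θ (m + 1) ^ 2 := by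
    have : (M + 1) * ((s.card : ℝ) * (M + 1)) ≤
        (M + 1) * (2 * (s.card : ℝ) ^ 2 + ∑ m ∈ range M, Sm s θ (m + 1) ^ 2) := by
      refine le_trans (le_of_eq ?_) h4; ring
    exact le_of_mul_le_mul_left this h5
  linarith

end MP225LS
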