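import Mathlib

/-!
# The smoothed logarithmic kernel on `[-2,2]` in the variable `2 cos θ`
-/

open Finset

namespace MP225LS

/-- `-log |1 - ρ e^{i(θ-φ)}| - log |1 - ρ e^{i(θ+φ)}|`. -/
noncomputable def Lk (ρ θ φ : ℝ) : ℝ :=
  -Real.log ‖1 - (ρ : ℂ) * Complex.exp (((θ - φ : ℝ) : ℂ) * Complex.I)‖
    - Real.log ‖1 - (ρ : ℂ) * Complex.exp (((θ + φ : ℝ) : ℂ) * Complex.I)‖

lemma norm_rho_exp (ρ ψ : ℝ) (h0 : 0 ≤ ρ) :
    ‖(ρ : ℂ) * Complex.exp ((ψ : ℂ) * Complex.I)‖ = ρ := by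
  rw [norm_mul, Complex.norm_exp_ofReal_mul_I, mul_one, Complex.norm_real, Real.norm_eq_abs,
    abs_of_nonneg h0]

lemma hasSum_one (ρ ψ : ℝ) (h0 : 0 ≤ ρ) (h1 : ρ < 1) :
    HasSum (fun m : ℕ => ρ ^ (m + 1) / (m + 1) * Real.cos ((m + 1) * ψ))
      (-Real.log ‖1 - (ρ : ℂ) * Complex.exp ((ψ : ℂ) * Complex.I)‖) := by
  have hz : ‖(ρ : ℂ) * Complex.exp ((ψ : ℂ) * Complex.I)‖ < 1 := by
    rw [norm_rho_exp ρ ψ h0]; exact h1
  have h := Complex.hasSum_taylorSeries_neg_log hz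
  have h2 := (hasSum_nat_add_iff' 1).mpr h
  simp only [Finset.range_one, Finset.sum_singleton, Nat.cast_zero, div_zero, sub_zero] at h2
  have h3 := Complex.hasSum_re h2
  rw [Complex.neg_re, Complex.log_re] at h3
  convert h3 using 2 with m
  rw [mul_pow, ← Complex.exp_nat_mul]
  have e1 : ((m + 1 : ℕ) : ℂ) * ((ψ : ℂ) * Complex.I) = (((m + 1) * ψ : ℝ) : ℂ) * Complex.I := by
    push_cast; ring
  rw [e1]
  have e2 : ((ρ : ℂ) ^ (m + 1) * Complex.exp ((((m + 1) * ψ : ℝ) : ℂ) * Complex.I) /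
      ((m + 1 : ℕ) : ℂ)) = ((ρ ^ (m + 1) / (m + 1) : ℝ) : ℂ) *
        Complex.exp ((((m + 1) * ψ : ℝ) : ℂ) * Complex.I) := by
    push_cast; ring
  rw [e2, Complex.re_ofReal_mul, Complex.exp_ofReal_mul_I_re]

/-- The expansion of the kernel. -/
theorem hasSum_Lk (ρ θ φ : ℝ) (h0 : 0 ≤ ρ) (h1 : ρ < 1) :
    HasSum (fun m : ℕ => ρ ^ (m + 1) / (2 * (m + 1)) * (2 * Real.cos ((m + 1) * θ)) *
      (2 * Real.cos ((m + 1) * φ))) (Lk ρ θ φ) := by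
  have h := (hasSum_one ρ (θ - φ) h0 h1).add (hasSum_one ρ (θ + φ) h0 h1)
  rw [Lk, sub_eq_add_neg]
  convert h using 2 with m
  have e : Real.cos ((m + 1) * (θ - φ)) + Real.cos ((m + 1) * (θ + φ)) =
      2 * Real.cos ((m + 1) * θ) * Real.cos ((m + 1) * φ) := by
    rw [mul_sub, mul_add, Real.cos_sub, Real.cos_add]; ring
  have hm : ((m : ℝ) + 1) ≠ 0 := by positivity
  rw [← mul_add, e]
  field_simp

lemma norm_sq_one_sub (ρ ψ : ℝ) :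
    ‖1 - (ρ : ℂ) * Complex.exp ((ψ : ℂ) * Complex.I)‖ ^ 2 =
      (1 - ρ) ^ 2 + ρ * (2 - 2 * Real.cos ψ) := by
  rw [← Complex.normSq_eq_norm_sq, Complex.normSq_apply]
  have hre : (1 - (ρ : ℂ) * Complex.exp ((ψ : ℂ) * Complex.I)).re = 1 - ρ * Real.cos ψ := by
    rw [Complex.sub_re, Complex.one_re, Complex.re_ofReal_mul, Complex.exp_ofReal_mul_I_re]
  have him : (1 - (ρ : ℂ) * Complex.exp ((ψ : ℂ) * Complex.I)).im = -(ρ * Real.sin ψ) := by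
    rw [Complex.sub_im, Complex.one_im, Complex.im_ofReal_mul, Complex.exp_ofReal_mul_I_im, zero_sub]
  rw [hre, him]
  have := Real.sin_sq_add_cos_sq ψ
  linear_combination ρ ^ 2 * this

lemma norm_ge (ρ ψ : ℝ) (h0 : 0 ≤ ρ) :
    1 - ρ ≤ ‖1 - (ρ : ℂ) * Complex.exp ((ψ : ℂ) * Complex.I)‖ := by
  have h := norm_sub_norm_le (1 : ℂ) ((ρ : ℂ) * Complex.exp ((ψ : ℂ) * Complex.I))
  rw [norm_rho_exp ρ ψ h0, norm_one] at h
  exact h

/-- Comparison with the logarithm of the distance. -/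
theorem Lk_le (ρ θ φ : ℝ) (h0 : 0 < ρ) (h1 : ρ < 1) (hne : 2 * Real.cos θ - 2 * Real.cos φ ≠ 0) :
    Lk ρ θ φ ≤ -Real.log |2 * Real.cos θ - 2 * Real.cos φ| - Real.log ρ := by
  set A := ‖1 - (ρ : ℂ) * Complex.exp (((θ - φ : ℝ) : ℂ) * Complex.I)‖ with hA
  set B := ‖1 - (ρ : ℂ) * Complex.exp (((θ + φ : ℝ) : ℂ) * Complex.I)‖ with hB
  have hA0 : 0 < A := lt_of_lt_of_le (by linarith) (norm_ge ρ (θ - φ) h0.le)
  have hB0 : 0 < B := lt_of_lt_of_le (by linarith) (norm_ge ρ (θ + φ) h0.le)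
  have hA2 := norm_sq_one_sub ρ (θ - φ)
  have hB2 := norm_sq_one_sub ρ (θ + φ)
  rw [← hA] at hA2
  rw [← hB] at hB2
  have c1 : 0 ≤ 2 - 2 * Real.cos (θ - φ) := by linarith [Real.cos_le_one (θ - φ)]
  have c2 : 0 ≤ 2 - 2 * Real.cos (θ + φ) := by linarith [Real.cos_le_one (θ + φ)]
  have key : (ρ * |2 * Real.cos θ - 2 * Real.cos φ|) ^ 2 ≤ (A * B) ^ 2 := by
    have e : (2 * Real.cos θ - 2 * Real.cos φ) ^ 2 =
        (2 - 2 * Real.cos (θ - φ)) * (2 - 2 * Real.cos (θ + φ)) := by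
      rw [Real.cos_sub, Real.cos_add]
      nlinarith [Real.sin_sq_add_cos_sq θ, Real.sin_sq_add_cos_sq φ,
        mul_self_nonneg (Real.sin θ * Real.sin φ)]
    rw [mul_pow, sq_abs, e, mul_pow, hA2, hB2]
    have : ρ ^ 2 * ((2 - 2 * Real.cos (θ - φ)) * (2 - 2 * Real.cos (θ + φ))) =
        (ρ * (2 - 2 * Real.cos (θ - φ))) * (ρ * (2 - 2 * Real.cos (θ + φ))) := by ring
    rw [this]
    exact mul_le_mul (by nlinarith [sq_nonneg (1 - ρ)]) (by nlinarith [sq_nonneg (1 - ρ)])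
      (by positivity) (by positivity)
  have key2 : ρ * |2 * Real.cos θ - 2 * Real.cos φ| ≤ A * B :=
    le_of_sq_le_sq key (by positivity)
  have hpos : 0 < |2 * Real.cos θ - 2 * Real.cos φ| := abs_pos.mpr hne
  have h3 := Real.log_le_log (by positivity) key2
  rw [Real.log_mul h0.ne' hpos.ne', Real.log_mul hA0.ne' hB0.ne'] at h3
  rw [Lk, ← hA, ← hB]
  linarith

/-- The kernel on the diagonal. -/
theorem Lk_diag (ρ θ φ : ℝ) (h0 : 0 ≤ ρ) (h1 : ρ < 1) : Lk ρ θ φ ≤ 2 * -Real.log (1 - ρ) := by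
  have hA := norm_ge ρ (θ - φ) h0
  have hB := norm_ge ρ (θ + φ) h0
  have h3 := Real.log_le_log (by linarith) hA
  have h4 := Real.log_le_log (by linarith) hB
  rw [Lk]
  linarith

end MP225LS
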