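import Pool.Agent.Lib_MP_225a87_ls.Numeric
import Pool.Agent.Lib_MP_225a87_ls.Alg
import Pool.Agent.Lib_MP_225a87_nt.DiscLog

/-!
# Counting algebraic integers with all conjugates in intervals of length 4
-/

open Polynomial Finset

namespace MP225LS

/-- The set of monic irreducible polynomials of degree `≤ X` over the integers of `L` whose
conjugates have all their roots real and in `[a φ, a φ + ℓ]`. -/
def PolySet (L : Type*) [Field L] [NumberField L] (a : (L →+* ℂ) → ℝ) (ℓ : ℝ) (X : ℕ) :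
    Set L[X] :=
  {P | P.Monic ∧ Irreducible P ∧ (∀ i, IsIntegral ℤ (P.coeff i)) ∧ P.natDegree ≤ X ∧
    ∀ φ : L →+* ℂ, ∀ w : ℂ, (P.map φ).IsRoot w → w.im = 0 ∧ a φ ≤ w.re ∧ w.re ≤ a φ + ℓ}

lemma isCoprime_of_ne {L : Type*} [Field L] (P Q : L[X]) (hP : P.Monic) (hQ : Q.Monic)
    (hPi : Irreducible P) (hQi : Irreducible Q) (hne : P ≠ Q) : IsCoprime P Q := by
  rw [hPi.coprime_iff_not_dvd]
  intro h
  exact hne (eq_of_monic_of_associated hP hQ (hPi.associated_of_dvd hQi h))

/-- The bound for finite sets of such polynomials. -/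
theorem finset_bound (L : Type*) [Field L] [NumberField L] (a : (L →+* ℂ) → ℝ) (X : ℕ)
    (T : Finset L[X])
    (hT : (T : Set L[X]) ⊆ PolySet L a (4 + 1 / (256 * Module.finrank ℚ L * (X : ℝ) ^ 2)) X) :
    (T.card : ℝ) ≤ 20000 * (Module.finrank ℚ L * X) *
      Real.log (2 * (Module.finrank ℚ L * X)) := by
  classical
  have hd : (Fintype.card (L →+* ℂ)) = Module.finrank ℚ L := NumberField.Embeddings.card L ℂ
  rcases T.eq_empty_or_nonempty with rfl | ⟨P0, hP0⟩
  · rw [Finset.card_empty, Nat.cast_zero]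
    rcases Nat.eq_zero_or_pos X with hX | hX
    · subst hX; simp
    · have hX1 : (1 : ℝ) ≤ X := by exact_mod_cast hX
      have hd1 : (1 : ℝ) ≤ Module.finrank ℚ L := by exact_mod_cast Module.finrank_pos
      have : 0 ≤ Real.log (2 * (Module.finrank ℚ L * X)) := Real.log_nonneg (by nlinarith)
      positivity
  have hmem : ∀ P : T, (P : L[X]) ∈
      PolySet L a (4 + 1 / (256 * Module.finrank ℚ L * (X : ℝ) ^ 2)) X := fun P => hT P.2
  have hdeg1 : ∀ P : T, 1 ≤ (P : L[X]).natDegree := fun P =>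
    Nat.one_le_iff_ne_zero.mpr (hmem P).2.1.natDegree_pos.ne'
  have hX1 : 1 ≤ X := (hdeg1 ⟨P0, hP0⟩).trans (hmem ⟨P0, hP0⟩).2.2.2.1
  have hXR : (1 : ℝ) ≤ X := by exact_mod_cast hX1
  have hd1 : (1 : ℝ) ≤ Module.finrank ℚ L := by exact_mod_cast Module.finrank_pos
  set d : ℝ := (Module.finrank ℚ L : ℝ) with hdd
  set τ : ℝ := 1 / (1024 * d * (X : ℝ) ^ 2) with hτ
  have hτ0 : 0 < τ := by positivity
  set s : ℝ := 1 + τ with hs
  have hs1 : 1 < s := by linarith
  have hs0 : 0 < s := by linarith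
  have hlogs : Real.log s ≤ τ := by
    have := Real.log_le_sub_one_of_pos hs0
    linarith
  have hlen : 4 + 1 / (256 * d * (X : ℝ) ^ 2) = 4 * s := by
    rw [hs, hτ]; field_simp; ring
  let θ : (L →+* ℂ) → ℂ → ℝ := fun φ w => Real.arccos ((w.re - (a φ + 2 * s)) / (2 * s))
  have hroot : ∀ (P : T) (φ : L →+* ℂ) (w : ℂ), w ∈ ((P : L[X]).map φ).roots.toFinset →
      w.im = 0 ∧ 2 * Real.cos (θ φ w) = (w.re - (a φ + 2 * s)) / s := by
    intro P φ w hw
    rw [Multiset.mem_toFinset, mem_roots ((hmem P).1.map φ).ne_zero] at hw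
    obtain ⟨h1, h2, h3⟩ := (hmem P).2.2.2.2 φ w hw
    rw [hlen] at h3
    refine ⟨h1, ?_⟩
    simp only [θ]
    rw [Real.cos_arccos]
    · field_simp
    · rw [le_div_iff₀ (by positivity)]; linarith
    · rw [div_le_iff₀ (by positivity)]; linarith
  have hdist : ∀ (P Q : T) (φ : L →+* ℂ) (z w : ℂ), z ∈ ((P : L[X]).map φ).roots.toFinset →
      w ∈ ((Q : L[X]).map φ).roots.toFinset →
      |2 * Real.cos (θ φ z) - 2 * Real.cos (θ φ w)| = ‖z - w‖ / s := by
    intro P Q φ z w hz hw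
    obtain ⟨hz1, hz2⟩ := hroot P φ z hz
    obtain ⟨hw1, hw2⟩ := hroot Q φ w hw
    rw [hz2, hw2]
    have h1 : z - w = ((z.re - w.re : ℝ) : ℂ) := by
      apply Complex.ext
      · simp
      · simp [hz1, hw1]
    rw [h1, Complex.norm_real, Real.norm_eq_abs, ← sub_div, abs_div, abs_of_pos hs0]
    congr 2; ring
  have hlogd : ∀ (P Q : T) (φ : L →+* ℂ) (z w : ℂ), z ∈ ((P : L[X]).map φ).roots.toFinset →
      w ∈ ((Q : L[X]).map φ).roots.toFinset → z ≠ w →
      -Real.log |2 * Real.cos (θ φ z) - 2 * Real.cos (θ φ w)| ≤ -Real.log ‖z - w‖ + τ := by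
    intro P Q φ z w hz hw hne
    rw [hdist P Q φ z w hz hw, Real.log_div (norm_ne_zero_iff.mpr (sub_ne_zero.mpr hne)) hs0.ne']
    linarith
  have hne0 : ∀ (P Q : T) (φ : L →+* ℂ) (z w : ℂ), z ∈ ((P : L[X]).map φ).roots.toFinset →
      w ∈ ((Q : L[X]).map φ).roots.toFinset → z ≠ w →
      2 * Real.cos (θ φ z) - 2 * Real.cos (θ φ w) ≠ 0 := by
    intro P Q φ z w hz hw hne h0
    have := hdist P Q φ z w hz hw
    rw [h0, abs_zero] at this
    have h2 : ‖z - w‖ ≠ 0 := norm_ne_zero_iff.mpr (sub_ne_zero.mpr hne)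
    exact h2 (by field_simp at this; linarith)
  have hsep : ∀ P : T, (P : L[X]).Separable := fun P => (hmem P).2.1.separable
  have hcard : ∀ (P : T) (φ : L →+* ℂ), (((P : L[X]).map φ).roots.toFinset).card =
      (P : L[X]).natDegree := by
    intro P φ
    have hnd : ((P : L[X]).map φ).roots.Nodup := nodup_roots (hsep P).map
    rw [Multiset.toFinset_card_of_nodup hnd,
      splits_iff_card_roots.1 (IsAlgClosed.splits _), (hmem P).1.natDegree_map]
  have key := count (ι := T) (S := L →+* ℂ) (A := ℂ) X (fun P => (P : L[X]).natDegree)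
    (fun P φ => ((P : L[X]).map φ).roots.toFinset) θ hcard hdeg1 (fun P => (hmem P).2.2.2.1)
    ?_ ?_ ?_ ?_
  · rw [Fintype.card_coe, hd] at key
    exact key
  · -- distinct
    intro P Q hPQ φ z hz w hw
    have hco : IsCoprime (P : L[X]) (Q : L[X]) := isCoprime_of_ne _ _ (hmem P).1 (hmem Q).1
      (hmem P).2.1 (hmem Q).2.1 (fun h => hPQ (Subtype.ext h))
    have h := (res_log (P : L[X]) (Q : L[X]) (hmem P).1 (hmem Q).1 (hmem P).2.2.1
      (hmem Q).2.2.1 (hsep P) (hsep Q) hco).1 φ z hz w hw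
    exact hne0 P Q φ z w hz hw h
  · -- resultants
    intro P Q hPQ
    have hco : IsCoprime (P : L[X]) (Q : L[X]) := isCoprime_of_ne _ _ (hmem P).1 (hmem Q).1
      (hmem P).2.1 (hmem Q).2.1 (fun h => hPQ (Subtype.ext h))
    obtain ⟨hdis, hlog⟩ := res_log (P : L[X]) (Q : L[X]) (hmem P).1 (hmem Q).1 (hmem P).2.2.1
      (hmem Q).2.2.1 (hsep P) (hsep Q) hco
    have h1 : ∑ φ : L →+* ℂ, ∑ z ∈ ((P : L[X]).map φ).roots.toFinset,
        ∑ w ∈ ((Q : L[X]).map φ).roots.toFinset,
        -Real.log |2 * Real.cos (θ φ z) - 2 * Real.cos (θ φ w)| ≤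
        ∑ φ : L →+* ℂ, ∑ z ∈ ((P : L[X]).map φ).roots.toFinset,
        ∑ w ∈ ((Q : L[X]).map φ).roots.toFinset, (-Real.log ‖z - w‖ + τ) :=
      Finset.sum_le_sum fun φ _ => Finset.sum_le_sum fun z hz => Finset.sum_le_sum fun w hw =>
        hlogd P Q φ z w hz hw (hdis φ z hz w hw)
    refine h1.trans ?_
    simp only [Finset.sum_add_distrib, Finset.sum_neg_distrib, Finset.sum_const, nsmul_eq_mul,
      hcard, Finset.card_univ, hd]
    rw [← hdd]
    have e : ((P : L[X]).natDegree : ℝ) * (Q : L[X]).natDegree *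
        (d * (1 / (1024 * d * (X : ℝ) ^ 2))) =
        d * (((P : L[X]).natDegree : ℝ) * (((Q : L[X]).natDegree : ℝ) * τ)) := by
      rw [hτ]; ring
    rw [e]
    linarith
  · -- distinct roots of one polynomial
    intro P φ z hz w hw hzw
    exact hne0 P P φ z w hz hw hzw.symm
  · -- discriminant
    intro P
    have hlog := MP225.disc_log (P : L[X]) (hmem P).1 (hmem P).2.2.1 (hsep P)
    have h1 : ∑ φ : L →+* ℂ, ∑ z ∈ ((P : L[X]).map φ).roots.toFinset,
        ∑ w ∈ (((P : L[X]).map φ).roots.toFinset).erase z,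
        -Real.log |2 * Real.cos (θ φ z) - 2 * Real.cos (θ φ w)| ≤
        ∑ φ : L →+* ℂ, ∑ z ∈ ((P : L[X]).map φ).roots.toFinset,
        (∑ w ∈ (((P : L[X]).map φ).roots.toFinset).erase z, (-Real.log ‖z - w‖) +
          (P : L[X]).natDegree * τ) := by
      refine Finset.sum_le_sum fun φ _ => Finset.sum_le_sum fun z hz => ?_
      have h2 : ∑ w ∈ (((P : L[X]).map φ).roots.toFinset).erase z,
          -Real.log |2 * Real.cos (θ φ z) - 2 * Real.cos (θ φ w)| ≤
          ∑ w ∈ (((P : L[X]).map φ).roots.toFinset).erase z, (-Real.log ‖z - w‖ + τ) := by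
        refine Finset.sum_le_sum fun w hw => ?_
        rw [Finset.mem_erase] at hw
        exact hlogd P P φ z w hz hw.2 hw.1.symm
      refine h2.trans ?_
      rw [Finset.sum_add_distrib, Finset.sum_const, nsmul_eq_mul]
      have h3 : (((((P : L[X]).map φ).roots.toFinset).erase z).card : ℝ) ≤
          (P : L[X]).natDegree := by
        rw [← hcard P φ]
        exact_mod_cast Finset.card_erase_le
      have := mul_le_mul_of_nonneg_right h3 hτ0.le
      linarith
    refine h1.trans ?_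
    simp only [Finset.sum_add_distrib, Finset.sum_neg_distrib, Finset.sum_const, nsmul_eq_mul,
      hcard, Finset.card_univ, hd]
    rw [← hdd]
    have e : ((P : L[X]).natDegree : ℝ) * (P : L[X]).natDegree *
        (d * (1 / (1024 * d * (X : ℝ) ^ 2))) =
        d * (((P : L[X]).natDegree : ℝ) * (((P : L[X]).natDegree : ℝ) * τ)) := by
      rw [hτ]; ring
    rw [e]
    linarith

/-- **Theorem A.** -/
theorem polySet_bound (L : Type*) [Field L] [NumberField L] (a : (L →+* ℂ) → ℝ) (X : ℕ) :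
    (PolySet L a (4 + 1 / (256 * Module.finrank ℚ L * (X : ℝ) ^ 2)) X).Finite ∧
    ((PolySet L a (4 + 1 / (256 * Module.finrank ℚ L * (X : ℝ) ^ 2)) X).ncard : ℝ) ≤
      20000 * (Module.finrank ℚ L * X) * Real.log (2 * (Module.finrank ℚ L * X)) := by
  classical
  set Sx := PolySet L a (4 + 1 / (256 * Module.finrank ℚ L * (X : ℝ) ^ 2)) X with hSx
  set B : ℝ := 20000 * (Module.finrank ℚ L * X) * Real.log (2 * (Module.finrank ℚ L * X)) with hB
  have hfin : Sx.Finite := by
    by_contra hinf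
    obtain ⟨n, hn⟩ := exists_nat_gt B
    obtain ⟨T, hT, hTc⟩ := (show Sx.Infinite from hinf).exists_subset_card_eq n
    have := finset_bound L a X T hT
    rw [hTc] at this
    linarith
  refine ⟨hfin, ?_⟩
  rw [Set.ncard_eq_toFinset_card Sx hfin]
  exact finset_bound L a X hfin.toFinset (by rw [hfin.coe_toFinset])

end MP225LS
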