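import Pool.Agent.Lib_MP_225a87_ls.Sieve

/-!
# Choice of the smoothing parameter
-/

open Finset

namespace MP225LS

lemma neg_log_one_sub_le (η : ℝ) (h0 : 0 ≤ η) (h1 : η ≤ 1 / 2) : -Real.log (1 - η) ≤ 2 * η := by
  have h := Real.one_sub_inv_le_log_of_pos (show (0 : ℝ) < 1 - η by linarith)
  have h2 : (1 - η)⁻¹ ≤ 1 + 2 * η := by
    rw [inv_le_comm₀ (by linarith) (by linarith), inv_le_iff_one_le_mul₀ (by linarith)]
    nlinarith
  linarith

lemma pow_lower (η : ℝ) (X : ℕ) (h0 : 0 ≤ η) (h1 : η ≤ 1) (hX : 4 * X * η ≤ 1 / 4) :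
    3 / 4 ≤ (1 - η) ^ (4 * X) := by
  have h := one_add_mul_le_pow (show (-2 : ℝ) ≤ -η by linarith) (4 * X)
  have : (1 : ℝ) + ((4 * X : ℕ) : ℝ) * (-η) = 1 - 4 * X * η := by push_cast; ring
  rw [this] at h
  have e : (1 : ℝ) + -η = 1 - η := by ring
  rw [e] at h
  linarith

lemma final_arith (N Y : ℝ) (hN : 0 ≤ N) (hY : 1 ≤ Y)
    (h : N ≤ 512 * Y * Real.log (16 * Y * (N + 1)) + 32 * Y + (N + 1) / 4) :
    N ≤ 20000 * Y * Real.log (2 * Y) := by
  have hY0 : 0 < Y := by linarith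
  have h1 : Real.log (16 * Y * (N + 1)) = Real.log (16 * Y) + Real.log (N + 1) :=
    Real.log_mul (by positivity) (by positivity)
  have h2 : Real.log (N + 1) ≤ (N + 1) / (2048 * Y) - 1 + Real.log (2048 * Y) := by
    have h3 := Real.log_le_sub_one_of_pos (show 0 < (N + 1) / (2048 * Y) by positivity)
    rw [Real.log_div (by positivity) (by positivity)] at h3
    linarith
  have h3 : 512 * Y * Real.log (N + 1) ≤ (N + 1) / 4 + 512 * Y * (Real.log (2048 * Y) - 1) := by
    have := mul_le_mul_of_nonneg_left h2 (show 0 ≤ 512 * Y by positivity)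
    refine this.trans (le_of_eq ?_)
    field_simp
    ring
  have h4 : Real.log (16 * Y) = Real.log (2 * Y) + 3 * Real.log 2 := by
    have : (16 : ℝ) * Y = (2 * Y) * 2 ^ 3 := by ring
    rw [this, Real.log_mul (by positivity) (by positivity), Real.log_pow]
    norm_num
  have h5 : Real.log (2048 * Y) = Real.log (2 * Y) + 10 * Real.log 2 := by
    have : (2048 : ℝ) * Y = (2 * Y) * 2 ^ 10 := by ring
    rw [this, Real.log_mul (by positivity) (by positivity), Real.log_pow]
    norm_num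
  have h6 := Real.log_two_gt_d9
  have h7 := Real.log_two_lt_d9
  have h8 : Real.log 2 ≤ Real.log (2 * Y) := Real.log_le_log (by norm_num) (by linarith)
  set L := Real.log (2 * Y) with hL
  have hL0 : 0.69 ≤ L := by linarith
  rw [h1, h4] at h
  rw [h5] at h3
  have h9 : 512 * Y * (L + 3 * Real.log 2 + Real.log (N + 1)) =
      512 * Y * (L + 3 * Real.log 2) + 512 * Y * Real.log (N + 1) := by ring
  rw [h9] at h
  -- N ≤ 512 Y (2 L + 13 log 2 - 1) + 32 Y + (N+1)/2
  have h10 : N / 2 ≤ 512 * Y * (2 * L + 13 * Real.log 2 - 1) + 32 * Y + 1 / 2 := by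
    nlinarith
  have h11 : Y * (13 * Real.log 2) ≤ Y * 9.02 := by
    refine mul_le_mul_of_nonneg_left ?_ hY0.le; linarith
  have h12 : Y * 0.69 ≤ Y * L := mul_le_mul_of_nonneg_left hL0 hY0.le
  have h13 : N ≤ 2048 * (Y * L) + 8300 * Y := by nlinarith
  have h14 : 8300 * Y ≤ 12030 * (Y * L) := by nlinarith
  nlinarith

/-- Geometric form: sets of points `2 cos θ`, mutual energies and discriminants controlled on
average over the places `σ`. -/
theorem count {ι S A : Type*} [Fintype ι] [DecidableEq ι] [DecidableEq A] [Fintype S] [Nonempty S]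
    (X : ℕ) (n : ι → ℕ) (R : ι → S → Finset A) (θ : S → A → ℝ)
    (hcard : ∀ i σ, (R i σ).card = n i) (hn1 : ∀ i, 1 ≤ n i) (hnX : ∀ i, n i ≤ X)
    (hne : ∀ i j, i ≠ j → ∀ σ, ∀ a ∈ R i σ, ∀ b ∈ R j σ,
      2 * Real.cos (θ σ a) - 2 * Real.cos (θ σ b) ≠ 0)
    (hoff : ∀ i j, i ≠ j → ∑ σ, ∑ a ∈ R i σ, ∑ b ∈ R j σ,
      -Real.log |2 * Real.cos (θ σ a) - 2 * Real.cos (θ σ b)| ≤
        n i * n j * (Fintype.card S * (1 / (1024 * Fintype.card S * (X : ℝ) ^ 2))))
    (hne' : ∀ i, ∀ σ, ∀ a ∈ R i σ, ∀ b ∈ R i σ, b ≠ a →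
      2 * Real.cos (θ σ a) - 2 * Real.cos (θ σ b) ≠ 0)
    (hdiag : ∀ i, ∑ σ, ∑ a ∈ R i σ, ∑ b ∈ (R i σ).erase a,
      -Real.log |2 * Real.cos (θ σ a) - 2 * Real.cos (θ σ b)| ≤
        n i * n i * (Fintype.card S * (1 / (1024 * Fintype.card S * (X : ℝ) ^ 2)))) :
    (Fintype.card ι : ℝ) ≤
      20000 * (Fintype.card S * X) * Real.log (2 * (Fintype.card S * X)) := by
  classical
  set d : ℝ := (Fintype.card S : ℝ) with hd
  have hd1 : 1 ≤ d := by
    rw [hd]; exact_mod_cast Fintype.card_pos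
  rcases isEmpty_or_nonempty ι with hemp | hneι
  · have h0 : (Fintype.card ι : ℝ) = 0 := by simp
    rw [h0]
    rcases Nat.eq_zero_or_pos X with hX | hX
    · subst hX; simp
    · have hX1 : (1 : ℝ) ≤ X := by exact_mod_cast hX
      have : 0 ≤ Real.log (2 * (d * X)) := Real.log_nonneg (by nlinarith)
      positivity
  obtain ⟨i0⟩ := hneι
  have hX1 : 1 ≤ X := (hn1 i0).trans (hnX i0)
  have hXR : (1 : ℝ) ≤ X := by exact_mod_cast hX1
  set N : ℝ := (Fintype.card ι : ℝ) with hN
  have hN0 : 0 ≤ N := by positivity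
  set τ : ℝ := 1 / (1024 * d * (X : ℝ) ^ 2) with hτ
  have hτ0 : 0 < τ := by positivity
  set η : ℝ := 1 / (16 * (N + 1) * X) with hη
  have hη0 : 0 < η := by positivity
  have hη1 : η ≤ 1 / 16 := by
    rw [hη]; apply one_div_le_one_div_of_le (by norm_num)
    nlinarith
  have hρ0 : 0 < 1 - η := by linarith
  have hρ1 : 1 - η < 1 := by linarith
  have hlogρ := neg_log_one_sub_le η hη0.le (by linarith)
  have hlogρ0 : 0 ≤ -Real.log (1 - η) := by
    have := Real.log_nonpos hρ0.le hρ1.le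
    linarith
  have hlogη : 0 ≤ -Real.log η := by
    have := Real.log_nonpos hη0.le (by linarith : η ≤ 1)
    linarith
  set E : ℝ := d * (τ + 2 * η) with hE
  have hE0 : 0 ≤ E := by positivity
  set B : ℝ := d * (2 * -Real.log η + (N + 1) * X * (τ + 2 * η)) with hB
  have hB0 : 0 < B := by
    have : 0 < (N + 1) * X * (τ + 2 * η) := by positivity
    rw [hB]; apply mul_pos (by linarith); linarith
  have key := core (1 - η) hρ0 hρ1 X n R θ hcard hn1 hnX E B hE0 hB0 ?_ ?_ ?_
  · -- conclusion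
    have hpow := pow_lower η X hη0.le (by linarith) (by
      rw [hη]
      have : 4 * (X : ℝ) * (1 / (16 * (N + 1) * X)) = 1 / (4 * (N + 1)) := by
        field_simp; ring
      rw [this]
      apply one_div_le_one_div_of_le (by norm_num)
      linarith)
    have h2 : 192 * (X : ℝ) * B / (1 - η) ^ (4 * X) ≤ 256 * X * B := by
      rw [div_le_iff₀ (by linarith)]
      have : 0 ≤ 256 * (X : ℝ) * B := by positivity
      nlinarith
    have h3 : N ≤ 256 * X * B := key.trans h2
    have e1 : -Real.log η = Real.log (16 * X * (N + 1)) := by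
      rw [hη, one_div, Real.log_inv, neg_neg]
      congr 1; ring
    have e2 : (N + 1) * X * (τ + 2 * η) = (N + 1) / (1024 * (d * X)) + 1 / 8 := by
      rw [hτ, hη]; field_simp; ring
    have h4 : 256 * (X : ℝ) * B ≤ 512 * (d * X) * Real.log (16 * (d * X) * (N + 1)) +
        32 * (d * X) + (N + 1) / 4 := by
      rw [hB, e1, e2]
      have h5 : Real.log (16 * X * (N + 1)) ≤ Real.log (16 * (d * X) * (N + 1)) := by
        apply Real.log_le_log (by positivity)
        have : 16 * (X : ℝ) ≤ 16 * (d * X) := by nlinarith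
        exact mul_le_mul_of_nonneg_right this (by positivity)
      have h6 : 256 * (X : ℝ) * (d * (2 * Real.log (16 * X * (N + 1)) +
          ((N + 1) / (1024 * (d * X)) + 1 / 8))) =
          512 * (d * X) * Real.log (16 * X * (N + 1)) + 32 * (d * X) + (N + 1) / 4 := by
        field_simp; ring
      rw [h6]
      have := mul_le_mul_of_nonneg_left h5 (show 0 ≤ 512 * (d * (X : ℝ)) by positivity)
      linarith
    exact final_arith N (d * X) hN0 (by nlinarith) (h3.trans h4)
  · -- off diagonal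
    intro i j hij
    have h1 : ∀ σ, ∀ a ∈ R i σ, ∀ b ∈ R j σ, Lk (1 - η) (θ σ a) (θ σ b) ≤
        -Real.log |2 * Real.cos (θ σ a) - 2 * Real.cos (θ σ b)| + 2 * η := by
      intro σ a ha b hb
      have := Lk_le (1 - η) (θ σ a) (θ σ b) hρ0 hρ1 (hne i j hij σ a ha b hb)
      linarith
    have h2 : ∑ σ, ∑ a ∈ R i σ, ∑ b ∈ R j σ, Lk (1 - η) (θ σ a) (θ σ b) ≤
        ∑ σ, ∑ a ∈ R i σ, ∑ b ∈ R j σ,
          (-Real.log |2 * Real.cos (θ σ a) - 2 * Real.cos (θ σ b)| + 2 * η) :=
      Finset.sum_le_sum fun σ _ => Finset.sum_le_sum fun a ha => Finset.sum_le_sum fun b hb =>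
        h1 σ a ha b hb
    refine h2.trans ?_
    simp only [Finset.sum_add_distrib, Finset.sum_const, nsmul_eq_mul, hcard, Finset.card_univ]
    have h3 := hoff i j hij
    rw [hE]
    have e : (n i : ℝ) * n j * (d * (τ + 2 * η)) = n i * n j * (d * τ) +
      d * (n i * (n j * (2 * η))) := by ring
    rw [e]
    linarith
  · -- diagonal
    intro i
    have h1 : ∀ σ, ∀ a ∈ R i σ, ∑ b ∈ R i σ, Lk (1 - η) (θ σ a) (θ σ b) ≤
        ∑ b ∈ (R i σ).erase a, (-Real.log |2 * Real.cos (θ σ a) - 2 * Real.cos (θ σ b)|) +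
          n i * (2 * η) + 2 * -Real.log η := by
      intro σ a ha
      rw [← Finset.add_sum_erase _ _ ha]
      have h2 : Lk (1 - η) (θ σ a) (θ σ a) ≤ 2 * -Real.log η := by
        have := Lk_diag (1 - η) (θ σ a) (θ σ a) hρ0.le hρ1
        rwa [sub_sub_cancel] at this
      have h3 : ∑ b ∈ (R i σ).erase a, Lk (1 - η) (θ σ a) (θ σ b) ≤
          ∑ b ∈ (R i σ).erase a,
            (-Real.log |2 * Real.cos (θ σ a) - 2 * Real.cos (θ σ b)| + 2 * η) := by
        refine Finset.sum_le_sum fun b hb => ?_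
        rw [Finset.mem_erase] at hb
        have := Lk_le (1 - η) (θ σ a) (θ σ b) hρ0 hρ1 (hne' i σ a ha b hb.2 hb.1)
        linarith
      rw [Finset.sum_add_distrib, Finset.sum_const, nsmul_eq_mul] at h3
      have h4 : (((R i σ).erase a).card : ℝ) * (2 * η) ≤ n i * (2 * η) := by
        refine mul_le_mul_of_nonneg_right ?_ (by positivity)
        rw [← hcard i σ]
        exact_mod_cast Finset.card_erase_le
      linarith
    have h2 : ∑ σ, ∑ a ∈ R i σ, ∑ b ∈ R i σ, Lk (1 - η) (θ σ a) (θ σ b) ≤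
        ∑ σ, ∑ a ∈ R i σ, (∑ b ∈ (R i σ).erase a,
          (-Real.log |2 * Real.cos (θ σ a) - 2 * Real.cos (θ σ b)|) +
          n i * (2 * η) + 2 * -Real.log η) :=
      Finset.sum_le_sum fun σ _ => Finset.sum_le_sum fun a ha => h1 σ a ha
    refine h2.trans ?_
    simp only [Finset.sum_add_distrib, Finset.sum_const, nsmul_eq_mul, hcard, Finset.card_univ]
    have h3 := hdiag i
    have hni : (n i : ℝ) ≤ X := by exact_mod_cast hnX i
    have hni0 : (0 : ℝ) ≤ n i := by positivity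
    have h4 : (n i : ℝ) * n i * (d * τ) + d * (n i * (n i * (2 * η))) ≤
        n i * (d * (X * (τ + 2 * η))) := by
      have : (n i : ℝ) * n i * (d * τ) + d * (n i * (n i * (2 * η))) =
          n i * (d * (n i * (τ + 2 * η))) := by ring
      rw [this]
      gcongr
    have h5 : (X : ℝ) * (τ + 2 * η) ≤ (N + 1) * X * (τ + 2 * η) := by
      have : (0 : ℝ) ≤ N * X * (τ + 2 * η) := by positivity
      nlinarith
    have h6 : (n i : ℝ) * (d * (X * (τ + 2 * η))) ≤ n i * (d * ((N + 1) * X * (τ + 2 * η))) := by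
      gcongr
    rw [hB]
    have e : (n i : ℝ) * (d * (2 * -Real.log η + (N + 1) * X * (τ + 2 * η))) =
        n i * (d * ((N + 1) * X * (τ + 2 * η))) + d * (n i * (2 * -Real.log η)) := by ring
    rw [e]
    linarith
  · -- N X E ≤ B
    rw [hB, hE]
    have : N * (X * (d * (τ + 2 * η))) ≤ d * ((N + 1) * X * (τ + 2 * η)) := by
      have h0 : (0 : ℝ) ≤ d * (X * (τ + 2 * η)) := by positivity
      nlinarith
    have h7 : 0 ≤ d * (2 * -Real.log η) := by positivity
    nlinarith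

end MP225LS
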