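import Pool.Agent.Lib_MP_225a87_ls.Main

/-!
# Intervals of length less than 4
-/

open Polynomial Finset

namespace MP225LS

lemma one_sub_exp_ge (x : ℝ) (h0 : 0 ≤ x) (h1 : x ≤ 1) : x / 2 ≤ 1 - Real.exp (-x) := by
  have h2 : Real.exp (-x) ≤ 1 - x + x ^ 2 / 2 := by
    have h3 : 1 + x + x ^ 2 / 2 ≤ Real.exp x := Real.quadratic_le_exp_of_nonneg h0
    rw [Real.exp_neg]
    rw [inv_le_iff_one_le_mul₀ (Real.exp_pos x)]
    have h4 : 0 ≤ 1 - x + x ^ 2 / 2 := by nlinarith [sq_nonneg (x - 1)]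
    have h5 : (1 - x + x ^ 2 / 2) * (1 + x + x ^ 2 / 2) ≤ (1 - x + x ^ 2 / 2) * Real.exp x :=
      mul_le_mul_of_nonneg_left h3 h4
    nlinarith [pow_nonneg h0 4]
  nlinarith

/-- Fekete's argument: the degree of a separable monic polynomial over the integers of `L` whose
conjugates have all roots in intervals of length `4 - δ` is at most `1 + (16/δ) log (16/δ)`. -/
theorem degree_bound (L : Type*) [Field L] [NumberField L] (a : (L →+* ℂ) → ℝ) (δ : ℝ)
    (hδ0 : 0 < δ) (hδ1 : δ ≤ 1) (G : L[X]) (hG : G.Monic) (hGi : ∀ i, IsIntegral ℤ (G.coeff i))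
    (hGs : G.Separable)
    (hroots : ∀ φ : L →+* ℂ, ∀ w : ℂ, (G.map φ).IsRoot w →
      w.im = 0 ∧ a φ ≤ w.re ∧ w.re ≤ a φ + (4 - δ)) :
    (G.natDegree : ℝ) ≤ 1 + 16 / δ * Real.log (16 / δ) := by
  classical
  have hd : (Fintype.card (L →+* ℂ)) = Module.finrank ℚ L := NumberField.Embeddings.card L ℂ
  have hd1 : (1 : ℝ) ≤ Module.finrank ℚ L := by exact_mod_cast Module.finrank_pos
  set d : ℝ := (Module.finrank ℚ L : ℝ) with hdd
  set n : ℝ := (G.natDegree : ℝ) with hn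
  have hn0 : 0 ≤ n := by positivity
  set s : ℝ := 1 - δ / 4 with hs
  have hs0 : 0 < s := by linarith
  have hlogs : Real.log s ≤ -(δ / 4) := by
    have := Real.log_le_sub_one_of_pos hs0
    linarith
  set ρ : ℝ := Real.exp (-(δ / 8)) with hρ
  have hρ0 : 0 < ρ := Real.exp_pos _
  have hρ1 : ρ < 1 := Real.exp_lt_one_iff.mpr (by linarith)
  have hlogρ : Real.log ρ = -(δ / 8) := Real.log_exp _
  have hρ2 : δ / 16 ≤ 1 - ρ := by
    have := one_sub_exp_ge (δ / 8) (by linarith) (by linarith)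
    rw [← hρ] at this; linarith
  have hlog1ρ : -Real.log (1 - ρ) ≤ Real.log (16 / δ) := by
    have h1 := Real.log_le_log (by positivity) hρ2
    have h2 : Real.log (16 / δ) = -Real.log (δ / 16) := by
      rw [← Real.log_inv, inv_div]
    linarith
  let θ : (L →+* ℂ) → ℂ → ℝ := fun φ w => Real.arccos ((w.re - (a φ + 2 * s)) / (2 * s))
  have hroot : ∀ (φ : L →+* ℂ) (w : ℂ), w ∈ (G.map φ).roots.toFinset →
      w.im = 0 ∧ 2 * Real.cos (θ φ w) = (w.re - (a φ + 2 * s)) / s := by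
    intro φ w hw
    rw [Multiset.mem_toFinset, mem_roots (hG.map φ).ne_zero] at hw
    obtain ⟨h1, h2, h3⟩ := hroots φ w hw
    have h4 : 4 - δ = 4 * s := by rw [hs]; ring
    rw [h4] at h3
    refine ⟨h1, ?_⟩
    simp only [θ]
    rw [Real.cos_arccos]
    · field_simp
    · rw [le_div_iff₀ (by positivity)]; linarith
    · rw [div_le_iff₀ (by positivity)]; linarith
  have hL : ∀ (φ : L →+* ℂ) (z w : ℂ), z ∈ (G.map φ).roots.toFinset →
      w ∈ (G.map φ).roots.toFinset → z ≠ w →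
      Lk ρ (θ φ z) (θ φ w) ≤ -Real.log ‖z - w‖ - δ / 8 := by
    intro φ z w hz hw hne
    obtain ⟨hz1, hz2⟩ := hroot φ z hz
    obtain ⟨hw1, hw2⟩ := hroot φ w hw
    have h1 : z - w = ((z.re - w.re : ℝ) : ℂ) := by
      apply Complex.ext
      · simp
      · simp [hz1, hw1]
    have h2 : |2 * Real.cos (θ φ z) - 2 * Real.cos (θ φ w)| = ‖z - w‖ / s := by
      rw [hz2, hw2, h1, Complex.norm_real, Real.norm_eq_abs, ← sub_div, abs_div, abs_of_pos hs0]
      congr 2; ring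
    have hzw : ‖z - w‖ ≠ 0 := norm_ne_zero_iff.mpr (sub_ne_zero.mpr hne)
    have h3 : 2 * Real.cos (θ φ z) - 2 * Real.cos (θ φ w) ≠ 0 := by
      intro h0
      rw [h0, abs_zero] at h2
      exact hzw (by field_simp at h2; linarith)
    have h4 := Lk_le ρ (θ φ z) (θ φ w) hρ0 hρ1 h3
    rw [h2, Real.log_div hzw hs0.ne', hlogρ] at h4
    linarith
  have hcard : ∀ φ : L →+* ℂ, ((G.map φ).roots.toFinset).card = G.natDegree := by
    intro φ
    have hnd : (G.map φ).roots.Nodup := nodup_roots hGs.map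
    rw [Multiset.toFinset_card_of_nodup hnd,
      splits_iff_card_roots.1 (IsAlgClosed.splits _), hG.natDegree_map]
  have hpos : ∀ φ : L →+* ℂ, 0 ≤ ∑ z ∈ (G.map φ).roots.toFinset,
      ∑ w ∈ (G.map φ).roots.toFinset, Lk ρ (θ φ z) (θ φ w) := by
    intro φ
    have h := hasSum_quad (ι := Unit) ρ hρ0.le hρ1 (fun _ => 1)
      (fun _ => (G.map φ).roots.toFinset) (θ φ)
    have h2 := h.nonneg fun m => by positivity
    simpa using h2
  have hdisc := MP225.disc_log G hG hGi hGs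
  have hub : ∀ φ : L →+* ℂ, ∑ z ∈ (G.map φ).roots.toFinset,
      ∑ w ∈ (G.map φ).roots.toFinset, Lk ρ (θ φ z) (θ φ w) ≤
      ∑ z ∈ (G.map φ).roots.toFinset, (∑ w ∈ ((G.map φ).roots.toFinset).erase z,
        (-Real.log ‖z - w‖) - (n - 1) * (δ / 8) + 2 * Real.log (16 / δ)) := by
    intro φ
    refine Finset.sum_le_sum fun z hz => ?_
    rw [← Finset.add_sum_erase _ _ hz]
    have h1 := Lk_diag ρ (θ φ z) (θ φ z) hρ0.le hρ1
    have h2 : ∑ w ∈ ((G.map φ).roots.toFinset).erase z, Lk ρ (θ φ z) (θ φ w) ≤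
        ∑ w ∈ ((G.map φ).roots.toFinset).erase z, (-Real.log ‖z - w‖ - δ / 8) := by
      refine Finset.sum_le_sum fun w hw => ?_
      rw [Finset.mem_erase] at hw
      exact hL φ z w hz hw.2 hw.1.symm
    rw [Finset.sum_sub_distrib, Finset.sum_const, nsmul_eq_mul, Finset.card_erase_of_mem hz,
      hcard φ] at h2
    have h3 : 1 ≤ G.natDegree := by
      rw [← hcard φ]; exact Finset.card_pos.mpr ⟨z, hz⟩
    rw [Nat.cast_sub h3, Nat.cast_one, ← hn] at h2
    linarith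
  have htot : 0 ≤ ∑ φ : L →+* ℂ, ∑ z ∈ (G.map φ).roots.toFinset,
      (∑ w ∈ ((G.map φ).roots.toFinset).erase z,
        (-Real.log ‖z - w‖) - (n - 1) * (δ / 8) + 2 * Real.log (16 / δ)) :=
    Finset.sum_nonneg fun φ _ => (hpos φ).trans (hub φ)
  simp only [Finset.sum_add_distrib, Finset.sum_sub_distrib, Finset.sum_neg_distrib,
    Finset.sum_const, nsmul_eq_mul, hcard, Finset.card_univ, hd] at htot
  rw [← hn, ← hdd] at htot
  have h5 : 0 ≤ d * (n * (2 * Real.log (16 / δ) - (n - 1) * (δ / 8))) := by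
    have e : d * (n * (2 * Real.log (16 / δ) - (n - 1) * (δ / 8))) =
        d * (n * (2 * Real.log (16 / δ))) - d * (n * ((n - 1) * (δ / 8))) := by ring
    rw [e]; linarith
  have hlogpos : 0 ≤ Real.log (16 / δ) := by
    apply Real.log_nonneg
    rw [le_div_iff₀ hδ0]; linarith
  rcases hn0.eq_or_lt with h0 | h0
  · rw [← h0]; positivity
  · have h6 : 0 ≤ 2 * Real.log (16 / δ) - (n - 1) * (δ / 8) := by
      by_contra hneg
      rw [not_le] at hneg
      have : d * (n * (2 * Real.log (16 / δ) - (n - 1) * (δ / 8))) < 0 :=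
        mul_neg_of_pos_of_neg (by linarith) (mul_neg_of_pos_of_neg h0 hneg)
      linarith
    have h7 : 16 / δ * Real.log (16 / δ) = (2 * Real.log (16 / δ)) * (8 / δ) := by ring
    rw [h7]
    have h8 : n - 1 = ((n - 1) * (δ / 8)) * (8 / δ) := by field_simp
    have h9 : ((n - 1) * (δ / 8)) * (8 / δ) ≤ (2 * Real.log (16 / δ)) * (8 / δ) :=
      mul_le_mul_of_nonneg_right (by linarith) (by positivity)
    linarith

/-- Polynomials of arbitrary degree with the conjugates of all roots in intervals of length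
`4 - δ`. -/
def ShortSet (L : Type*) [Field L] [NumberField L] (a : (L →+* ℂ) → ℝ) (δ : ℝ) :
    Set L[X] :=
  {P | P.Monic ∧ Irreducible P ∧ (∀ i, IsIntegral ℤ (P.coeff i)) ∧
    ∀ φ : L →+* ℂ, ∀ w : ℂ, (P.map φ).IsRoot w → w.im = 0 ∧ a φ ≤ w.re ∧ w.re ≤ a φ + (4 - δ)}

/-- The total degree of such polynomials. -/
theorem total_degree (L : Type*) [Field L] [NumberField L] (a : (L →+* ℂ) → ℝ) (δ : ℝ)
    (hδ0 : 0 < δ) (hδ1 : δ ≤ 1) (T : Finset L[X]) (hT : (T : Set L[X]) ⊆ ShortSet L a δ) :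
    ((∑ P ∈ T, P.natDegree : ℕ) : ℝ) ≤ 1 + 16 / δ * Real.log (16 / δ) := by
  classical
  have hmem : ∀ P ∈ T, P ∈ ShortSet L a δ := fun P hP => hT hP
  have hmon : ∀ P ∈ T, P.Monic := fun P hP => (hmem P hP).1
  have hG : (∏ P ∈ T, P).Monic := monic_prod_of_monic T _ hmon
  have hdeg : (∏ P ∈ T, P).natDegree = ∑ P ∈ T, P.natDegree :=
    natDegree_prod_of_monic T _ hmon
  have hGs : (∏ P ∈ T, P).Separable := by
    refine separable_prod' ?_ ?_
    · intro P hP Q hQ hne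
      exact isCoprime_of_ne P Q (hmon P hP) (hmon Q hQ) (hmem P hP).2.1 (hmem Q hQ).2.1 hne
    · intro P hP
      exact (hmem P hP).2.1.separable
  have hGi : ∀ i, IsIntegral ℤ ((∏ P ∈ T, P).coeff i) := by
    have hl : ∀ F : L[X], (∀ i, IsIntegral ℤ (F.coeff i)) →
        F ∈ lifts (algebraMap (integralClosure ℤ L) L) := by
      intro F hF
      rw [lifts_iff_coeff_lifts]
      intro i
      exact ⟨⟨F.coeff i, hF i⟩, rfl⟩
    have h1 : (∏ P ∈ T, P) ∈ lifts (algebraMap (integralClosure ℤ L) L) :=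
      Subsemiring.prod_mem _ fun P hP => hl P (hmem P hP).2.2.1
    intro i
    rw [lifts_iff_coeff_lifts] at h1
    obtain ⟨x, hx⟩ := h1 i
    rw [← hx]
    exact x.2
  have h := degree_bound L a δ hδ0 hδ1 _ hG hGi hGs ?_
  · rwa [hdeg] at h
  · intro φ w hw
    rw [Polynomial.map_prod, IsRoot.def, eval_prod, Finset.prod_eq_zero_iff] at hw
    obtain ⟨P, hP, hPw⟩ := hw
    exact (hmem P hP).2.2.2 φ w hPw

end MP225LS
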