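import Pool.Agent.Lib_MP_225a87_ls.Short

/-!
# The number of conjugate sets in intervals of length less than 4
-/

open Polynomial Finset

namespace MP225LS

lemma fekete_arith (d δ : ℝ) (hd : 1 ≤ d) (hδ0 : 0 < δ) (hδ1 : δ ≤ 1) :
    1 + 16 / δ * Real.log (16 / δ) ≤ 66 * (1 / δ) * Real.log (2 * d / δ) := by
  have h2 := Real.log_two_gt_d9
  have hinv : 1 ≤ 1 / δ := by rw [le_div_iff₀ hδ0]; linarith
  have h1 : Real.log 2 ≤ Real.log (2 / δ) := by
    apply Real.log_le_log (by norm_num)
    rw [le_div_iff₀ hδ0]; linarith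
  have h3 : Real.log (16 / δ) = Real.log (2 / δ) + 3 * Real.log 2 := by
    have : (16 : ℝ) / δ = (2 / δ) * 2 ^ 3 := by ring
    rw [this, Real.log_mul (by positivity) (by positivity), Real.log_pow]
    norm_num
  have h4 : Real.log (2 / δ) ≤ Real.log (2 * d / δ) := by
    apply Real.log_le_log (by positivity)
    gcongr
    linarith
  set l := Real.log (2 * d / δ) with hl
  have h5 : Real.log (16 / δ) ≤ 4 * l := by linarith
  have h6 : 1 ≤ 2 * l := by linarith
  have h7 : 16 / δ * Real.log (16 / δ) ≤ 64 * (1 / δ) * l := by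
    have : 16 / δ * Real.log (16 / δ) ≤ 16 / δ * (4 * l) :=
      mul_le_mul_of_nonneg_left h5 (by positivity)
    refine this.trans (le_of_eq ?_)
    ring
  have h8 : 1 ≤ 2 * (1 / δ) * l := by nlinarith
  nlinarith

theorem short_finset_bound (L : Type*) [Field L] [NumberField L] (a : (L →+* ℂ) → ℝ) (δ : ℝ)
    (hδ0 : 0 < δ) (hδ1 : δ ≤ 1) (T : Finset L[X]) (hT : (T : Set L[X]) ⊆ ShortSet L a δ) :
    (T.card : ℝ) ≤ 21000 * Real.sqrt (Module.finrank ℚ L / δ) *
      Real.log (2 * Module.finrank ℚ L / δ) := by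
  classical
  have hd1 : (1 : ℝ) ≤ Module.finrank ℚ L := by exact_mod_cast Module.finrank_pos
  have htot := total_degree L a δ hδ0 hδ1 T hT
  have hdegpos : ∀ P ∈ T, 1 ≤ P.natDegree := fun P hP =>
    Nat.one_le_iff_ne_zero.mpr (hT hP).2.1.natDegree_pos.ne'
  set d : ℝ := (Module.finrank ℚ L : ℝ) with hdd
  have hf := fekete_arith d δ hd1 hδ0 hδ1
  set l := Real.log (2 * d / δ) with hl
  have hl0 : 0 < l := by
    apply Real.log_pos
    rw [lt_div_iff₀ hδ0]; linarith
  have hsq0 : 0 < Real.sqrt (d / δ) := Real.sqrt_pos.mpr (by positivity)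
  have hsq : Real.sqrt (d / δ) ^ 2 = d / δ := Real.sq_sqrt (by positivity)
  rcases le_or_gt 1 (d * δ) with hcase | hcase
  · -- large fields
    have h1 : (T.card : ℝ) ≤ ((∑ P ∈ T, P.natDegree : ℕ) : ℝ) := by
      have : T.card ≤ ∑ P ∈ T, P.natDegree := by
        calc T.card = ∑ _P ∈ T, 1 := by simp
          _ ≤ _ := Finset.sum_le_sum hdegpos
      exact_mod_cast this
    have h2 : 1 / δ ≤ Real.sqrt (d / δ) := by
      apply Real.le_sqrt_of_sq_le
      rw [div_pow, one_pow, div_le_div_iff₀ (by positivity) hδ0]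
      nlinarith
    have h3 : 66 * (1 / δ) * l ≤ 66 * Real.sqrt (d / δ) * l := by gcongr
    have h4 : 66 * Real.sqrt (d / δ) * l ≤ 21000 * Real.sqrt (d / δ) * l := by
      have := mul_pos hsq0 hl0
      nlinarith
    linarith
  · -- small fields
    set y : ℝ := 1 / Real.sqrt (d * δ) with hy
    have hdδ : 0 < d * δ := by positivity
    have hs1 : 0 < Real.sqrt (d * δ) := Real.sqrt_pos.mpr hdδ
    have hs2 : Real.sqrt (d * δ) < 1 := by
      rw [Real.sqrt_lt' one_pos]; simpa using hcase
    have hy1 : 1 < y := by rw [hy, lt_div_iff₀ hs1]; linarith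
    have hy0 : 0 < y := by linarith
    have hdy : d * y = Real.sqrt (d / δ) := by
      have : (d * y) ^ 2 = d / δ := by
        rw [hy, mul_pow, div_pow, one_pow, Real.sq_sqrt hdδ.le]
        field_simp
      rw [← this, Real.sqrt_sq (by positivity)]
    set X : ℕ := ⌊y⌋₊ with hX
    have hXy : (X : ℝ) ≤ y := Nat.floor_le hy0.le
    have hXy1 : y < X + 1 := Nat.lt_floor_add_one y
    have hX1 : 1 ≤ X := by
      rw [hX]; exact Nat.one_le_floor_iff _ |>.mpr hy1.le
    have hXR : (1 : ℝ) ≤ X := by exact_mod_cast hX1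
    -- small degrees
    have hsmall : ((T.filter fun P => P.natDegree ≤ X).card : ℝ) ≤
        20000 * Real.sqrt (d / δ) * l := by
      have h := finset_bound L a X (T.filter fun P => P.natDegree ≤ X) ?_
      · refine h.trans ?_
        rw [← hdd]
        have h1 : d * X ≤ Real.sqrt (d / δ) := by
          rw [← hdy]; exact mul_le_mul_of_nonneg_left hXy (by linarith)
        have h2 : Real.log (2 * (d * X)) ≤ l := by
          apply Real.log_le_log (by positivity)
          have h3 : Real.sqrt (d / δ) ≤ d / δ := by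
            rw [Real.sqrt_le_left (by positivity)]
            have : 1 ≤ d / δ := by rw [le_div_iff₀ hδ0]; linarith
            nlinarith
          have e : 2 * d / δ = 2 * (d / δ) := by ring
          rw [e]; linarith
        have h4 : 0 ≤ Real.log (2 * (d * X)) := Real.log_nonneg (by nlinarith)
        calc 20000 * (d * X) * Real.log (2 * (d * X)) ≤
            20000 * Real.sqrt (d / δ) * Real.log (2 * (d * X)) := by gcongr
          _ ≤ 20000 * Real.sqrt (d / δ) * l := by gcongr
      · intro P hP
        rw [Finset.mem_coe, Finset.mem_filter] at hP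
        obtain ⟨h1, h2, h3, h4⟩ := hT hP.1
        refine ⟨h1, h2, h3, hP.2, fun φ w hw => ?_⟩
        obtain ⟨e1, e2, e3⟩ := h4 φ w hw
        refine ⟨e1, e2, ?_⟩
        have : (0 : ℝ) ≤ 1 / (256 * Module.finrank ℚ L * (X : ℝ) ^ 2) := by positivity
        linarith
    -- large degrees
    have hlarge : ((T.filter fun P => ¬ P.natDegree ≤ X).card : ℝ) ≤
        66 * Real.sqrt (d / δ) * l := by
      have h1 : ((T.filter fun P => ¬ P.natDegree ≤ X).card : ℝ) * y ≤
          ((∑ P ∈ T, P.natDegree : ℕ) : ℝ) := by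
        push_cast
        calc ((T.filter fun P => ¬ P.natDegree ≤ X).card : ℝ) * y =
            ∑ _P ∈ T.filter fun P => ¬ P.natDegree ≤ X, y := by
              rw [Finset.sum_const, nsmul_eq_mul]
          _ ≤ ∑ P ∈ T.filter fun P => ¬ P.natDegree ≤ X, (P.natDegree : ℝ) := by
              refine Finset.sum_le_sum fun P hP => ?_
              rw [Finset.mem_filter, not_le] at hP
              have : ((X + 1 : ℕ) : ℝ) ≤ P.natDegree := by exact_mod_cast hP.2
              push_cast at this
              linarith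
          _ ≤ ∑ P ∈ T, (P.natDegree : ℝ) :=
              Finset.sum_le_sum_of_subset_of_nonneg (Finset.filter_subset _ _)
                fun P _ _ => by positivity
      have h2 : ((T.filter fun P => ¬ P.natDegree ≤ X).card : ℝ) * y ≤
          66 * (1 / δ) * l := by linarith
      have h3 : 66 * Real.sqrt (d / δ) * l * y = 66 * (1 / δ) * l := by
        have : Real.sqrt (d / δ) * y = 1 / δ := by
          rw [← hdy]
          have : d * y * y = d * y ^ 2 := by ring
          rw [this, hy, div_pow, one_pow, Real.sq_sqrt hdδ.le]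
          field_simp
        calc 66 * Real.sqrt (d / δ) * l * y = 66 * (Real.sqrt (d / δ) * y) * l := by ring
          _ = _ := by rw [this]
      rw [← h3] at h2
      exact le_of_mul_le_mul_right h2 hy0
    have hcard : (T.card : ℝ) = ((T.filter fun P => P.natDegree ≤ X).card : ℝ) +
        ((T.filter fun P => ¬ P.natDegree ≤ X).card : ℝ) := by
      rw [← Nat.cast_add, Finset.card_filter_add_card_filter_not]
    have := mul_pos hsq0 hl0
    nlinarith

/-- **Theorem B.** -/
theorem shortSet_bound (L : Type*) [Field L] [NumberField L] (a : (L →+* ℂ) → ℝ) (δ : ℝ)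
    (hδ0 : 0 < δ) (hδ1 : δ ≤ 1) :
    (ShortSet L a δ).Finite ∧ ((ShortSet L a δ).ncard : ℝ) ≤
      21000 * Real.sqrt (Module.finrank ℚ L / δ) * Real.log (2 * Module.finrank ℚ L / δ) := by
  classical
  set B : ℝ := 21000 * Real.sqrt (Module.finrank ℚ L / δ) *
    Real.log (2 * Module.finrank ℚ L / δ) with hB
  have hfin : (ShortSet L a δ).Finite := by
    by_contra hinf
    obtain ⟨n, hn⟩ := exists_nat_gt B
    obtain ⟨T, hT, hTc⟩ := (show (ShortSet L a δ).Infinite from hinf).exists_subset_card_eq n
    have := short_finset_bound L a δ hδ0 hδ1 T hT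
    rw [hTc] at this
    linarith
  refine ⟨hfin, ?_⟩
  rw [Set.ncard_eq_toFinset_card _ hfin]
  exact short_finset_bound L a δ hδ0 hδ1 hfin.toFinset (by rw [hfin.coe_toFinset])

end MP225LS
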