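import Pool.Agent.Lib_MP_225a87_ls.Kernel
import Pool.Agent.Lib_MP_225a87_ls.Fejer
import Pool.Agent.Lib_MP_225a87_ls.Abstract

/-!
# The large sieve bound for the number of sets with small mutual logarithmic energy
-/

open Finset

namespace MP225LS

lemma hasSum_quad {ι A : Type*} [Fintype ι] (ρ : ℝ) (h0 : 0 ≤ ρ) (h1 : ρ < 1) (u : ι → ℝ)
    (R : ι → Finset A) (θ : A → ℝ) :
    HasSum (fun m : ℕ => ρ ^ (m + 1) / (2 * (m + 1)) * (∑ i, u i * Sm (R i) θ (m + 1)) ^ 2)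
      (∑ i, ∑ j, u i * u j * ∑ a ∈ R i, ∑ b ∈ R j, Lk ρ (θ a) (θ b)) := by
  have h : HasSum (fun m : ℕ => ∑ i, ∑ j, u i * u j * ∑ a ∈ R i, ∑ b ∈ R j,
      (ρ ^ (m + 1) / (2 * (m + 1)) * (2 * Real.cos ((m + 1) * θ a)) *
      (2 * Real.cos ((m + 1) * θ b))))
      (∑ i, ∑ j, u i * u j * ∑ a ∈ R i, ∑ b ∈ R j, Lk ρ (θ a) (θ b)) :=
    hasSum_sum fun i _ => hasSum_sum fun j _ => (hasSum_sum fun a _ => hasSum_sum fun b _ =>
      hasSum_Lk ρ (θ a) (θ b) h0 h1).mul_left _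
  convert h using 2 with m
  rw [sq, Finset.sum_mul_sum, Finset.mul_sum]
  refine Finset.sum_congr rfl fun i _ => ?_
  rw [Finset.mul_sum]
  refine Finset.sum_congr rfl fun j _ => ?_
  rw [Sm, Sm]
  have e : ∑ a ∈ R i, ∑ b ∈ R j,
      (ρ ^ (m + 1) / (2 * ((m : ℝ) + 1)) * (2 * Real.cos (((m : ℝ) + 1) * θ a)) *
      (2 * Real.cos (((m : ℝ) + 1) * θ b))) = ρ ^ (m + 1) / (2 * ((m : ℝ) + 1)) *
      ((∑ a ∈ R i, 2 * Real.cos (((m : ℝ) + 1) * θ a)) *
       ∑ b ∈ R j, 2 * Real.cos (((m : ℝ) + 1) * θ b)) := by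
    rw [Finset.sum_mul_sum, Finset.mul_sum]
    refine Finset.sum_congr rfl fun a _ => ?_
    rw [Finset.mul_sum]
    exact Finset.sum_congr rfl fun b _ => by ring
  rw [e]
  push_cast
  ring

/-- **Core bound.** `R i σ` finite sets of `n i ≤ X` points whose mutual energies, smoothed at
`ρ` and summed over `σ`, are at most `d n_i n_j ε` (`i ≠ j`), and at most `B n_i` for `i = j`. -/
theorem core {ι S A : Type*} [Fintype ι] [DecidableEq ι] [Fintype S] [Nonempty S]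
    (ρ : ℝ) (h0 : 0 < ρ) (h1 : ρ < 1) (X : ℕ) (n : ι → ℕ)
    (R : ι → S → Finset A) (θ : S → A → ℝ) (hcard : ∀ i σ, (R i σ).card = n i)
    (hn1 : ∀ i, 1 ≤ n i) (hnX : ∀ i, n i ≤ X) (E B : ℝ) (hE : 0 ≤ E) (hB0 : 0 < B)
    (hoff : ∀ i j, i ≠ j →
      ∑ σ, ∑ a ∈ R i σ, ∑ b ∈ R j σ, Lk ρ (θ σ a) (θ σ b) ≤ n i * n j * E)
    (hdiag : ∀ i, ∑ σ, ∑ a ∈ R i σ, ∑ b ∈ R i σ, Lk ρ (θ σ a) (θ σ b) ≤ n i * B)
    (hNE : (Fintype.card ι : ℝ) * (X * E) ≤ B) :
    (Fintype.card ι : ℝ) ≤ 192 * X * B / ρ ^ (4 * X) := by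
  classical
  rcases isEmpty_or_nonempty ι with hemp | hne
  · have : (Fintype.card ι : ℝ) = 0 := by simp
    rw [this]; positivity
  obtain ⟨i0⟩ := hne
  have hX1 : 1 ≤ X := (hn1 i0).trans (hnX i0)
  let w : ι → ℝ := fun i => (Real.sqrt (n i))⁻¹
  have hnpos : ∀ i, (0 : ℝ) < n i := fun i => by exact_mod_cast hn1 i
  have hw0 : ∀ i, 0 < w i := fun i => inv_pos.mpr (Real.sqrt_pos.mpr (hnpos i))
  have hw2 : ∀ i, w i ^ 2 * n i = 1 := by
    intro i
    simp only [w]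
    rw [inv_pow, Real.sq_sqrt (hnpos i).le, inv_mul_cancel₀ (hnpos i).ne']
  have hwn : ∀ i, (w i * n i) ^ 2 ≤ X := by
    intro i
    have : (w i * (n i : ℝ)) ^ 2 = (n i : ℝ) := by
      have := hw2 i
      calc (w i * (n i : ℝ)) ^ 2 = (w i ^ 2 * (n i : ℝ)) * (n i : ℝ) := by ring
        _ = (n i : ℝ) := by rw [this, one_mul]
    rw [this]; exact_mod_cast hnX i
  let G : ι → ι → ℝ := fun i j => w i * w j *
    ∑ σ, ∑ a ∈ R i σ, ∑ b ∈ R j σ, Lk ρ (θ σ a) (θ σ b)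
  have hLsym : ∀ x y, Lk ρ x y = Lk ρ y x := by
    intro x y
    have hx := hasSum_Lk ρ x y h0.le h1
    have hy := hasSum_Lk ρ y x h0.le h1
    refine hx.unique ?_
    convert hy using 2 with m
    ring
  have hsym : ∀ i j, G i j = G j i := by
    intro i j
    simp only [G]
    rw [mul_comm (w i)]
    congr 1
    refine Finset.sum_congr rfl fun σ _ => ?_
    rw [Finset.sum_comm]
    exact Finset.sum_congr rfl fun a _ => Finset.sum_congr rfl fun b _ => hLsym _ _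
  -- the quadratic form
  have hquad : ∀ c : ι → ℝ, ∑ i, ∑ j, c i * c j * G i j =
      ∑ σ, ∑ i, ∑ j, (c i * w i) * (c j * w j) *
        ∑ a ∈ R i σ, ∑ b ∈ R j σ, Lk ρ (θ σ a) (θ σ b) := by
    intro c
    rw [Finset.sum_comm]
    rw [Finset.sum_comm (s := (Finset.univ : Finset S))]
    rw [Finset.sum_comm]
    refine Finset.sum_congr rfl fun i _ => ?_
    rw [Finset.sum_comm]
    refine Finset.sum_congr rfl fun j _ => ?_
    simp only [G]
    rw [Finset.mul_sum, Finset.mul_sum]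
    refine Finset.sum_congr rfl fun σ _ => ?_
    ring
  have hnn : ∀ (c : ι → ℝ) (σ : S), 0 ≤ ∑ i, ∑ j, (c i * w i) * (c j * w j) *
        ∑ a ∈ R i σ, ∑ b ∈ R j σ, Lk ρ (θ σ a) (θ σ b) := by
    intro c σ
    have h := hasSum_quad ρ h0.le h1 (fun i => c i * w i) (fun i => R i σ) (θ σ)
    exact h.nonneg fun m => by positivity
  have hpos : ∀ c : ι → ℝ, 0 ≤ ∑ i, ∑ j, c i * c j * G i j := by
    intro c
    rw [hquad c]
    exact Finset.sum_nonneg fun σ _ => hnn c σ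
  have hGoff : ∀ i j, i ≠ j → G i j ≤ X * E := by
    intro i j hij
    have h := mul_le_mul_of_nonneg_left (hoff i j hij) (mul_pos (hw0 i) (hw0 j)).le
    refine h.trans ?_
    have h2 : (w i * n i) * (w j * n j) ≤ X := by
      nlinarith [hwn i, hwn j, sq_nonneg (w i * n i - w j * n j)]
    calc w i * w j * (n i * n j * E) = ((w i * n i) * (w j * n j)) * E := by ring
      _ ≤ X * E := mul_le_mul_of_nonneg_right h2 hE
  have hGdiag : ∀ i, G i i ≤ B := by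
    intro i
    have h := mul_le_mul_of_nonneg_left (hdiag i) (mul_pos (hw0 i) (hw0 i)).le
    refine h.trans (le_of_eq ?_)
    calc w i * w i * (n i * B) = (w i ^ 2 * n i) * B := by ring
      _ = B := by rw [hw2 i, one_mul]
  obtain ⟨F, hFcard, hF⟩ := half_large_sieve G hsym (X * E) B (by positivity) hB0 hGoff hGdiag
    hpos hNE
  obtain ⟨σ0⟩ : Nonempty S := inferInstance
  -- component bounds
  have hcomp : ∀ m : ℕ, ∑ i ∈ F, (w i * Sm (R i σ0) (θ σ0) (m + 1)) ^ 2 ≤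
      12 * (m + 1) * B / ρ ^ (m + 1) := by
    intro m
    have hγ : 0 < ρ ^ (m + 1) / (2 * ((m : ℝ) + 1)) := by positivity
    have h := component_bound G (6 * B) (ρ ^ (m + 1) / (2 * ((m : ℝ) + 1))) (by positivity) hγ F
      (fun i => w i * Sm (R i σ0) (θ σ0) (m + 1)) hF ?_
    · refine h.trans (le_of_eq ?_)
      field_simp
      ring
    · intro c
      rw [hquad c]
      have h2 := hasSum_quad ρ h0.le h1 (fun i => c i * w i) (fun i => R i σ0) (θ σ0)
      have h3 : ρ ^ (m + 1) / (2 * ((m : ℝ) + 1)) *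
          (∑ i, (c i * w i) * Sm (R i σ0) (θ σ0) (m + 1)) ^ 2 ≤ _ :=
        le_hasSum h2 m fun k _ => by positivity
      have e : ∑ i, c i * (w i * Sm (R i σ0) (θ σ0) (m + 1)) =
          ∑ i, (c i * w i) * Sm (R i σ0) (θ σ0) (m + 1) :=
        Finset.sum_congr rfl fun i _ => by ring
      rw [e]
      refine h3.trans ?_
      exact Finset.single_le_sum (f := fun σ => ∑ i, ∑ j, (c i * w i) * (c j * w j) *
        ∑ a ∈ R i σ, ∑ b ∈ R j σ, Lk ρ (θ σ a) (θ σ b)) (fun σ _ => hnn c σ) (Finset.mem_univ σ0)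
  -- sum over m
  obtain ⟨M, hM⟩ : ∃ M : ℕ, M + 1 = 4 * X := ⟨4 * X - 1, by omega⟩
  have hMR : (M : ℝ) + 1 = 4 * X := by exact_mod_cast hM
  have hup : ∑ m ∈ range M, ∑ i ∈ F, (w i * Sm (R i σ0) (θ σ0) (m + 1)) ^ 2 ≤
      M * (12 * (4 * X) * B / ρ ^ (4 * X)) := by
    calc _ ≤ ∑ _m ∈ range M, (12 * (4 * X) * B / ρ ^ (4 * X)) := by
          refine Finset.sum_le_sum fun m hm => (hcomp m).trans ?_
          have hmM : m < M := by simpa using hm
          have h2 : (m : ℝ) + 1 ≤ 4 * X := by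
            rw [← hMR]
            have : (m : ℝ) < M := by exact_mod_cast hmM
            linarith
          have h3 : ρ ^ (4 * X) ≤ ρ ^ (m + 1) := pow_le_pow_of_le_one h0.le h1.le (by omega)
          have h4 : 0 < ρ ^ (4 * X) := by positivity
          gcongr
      _ = _ := by rw [Finset.sum_const, Finset.card_range, nsmul_eq_mul]
  have hlow : (F.card : ℝ) * (2 * X) ≤
      ∑ m ∈ range M, ∑ i ∈ F, (w i * Sm (R i σ0) (θ σ0) (m + 1)) ^ 2 := by
    rw [Finset.sum_comm]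
    have : ∀ i ∈ F, (2 * (X : ℝ)) ≤
        ∑ m ∈ range M, (w i * Sm (R i σ0) (θ σ0) (m + 1)) ^ 2 := by
      intro i _
      have h := fejer (R i σ0) (θ σ0) M
      rw [hcard i σ0, hMR] at h
      have h2 := mul_le_mul_of_nonneg_left h (sq_nonneg (w i))
      have e1 : w i ^ 2 * ((n i : ℝ) * (4 * X) - 2 * (n i : ℝ) ^ 2) = 4 * X - 2 * n i := by
        have := hw2 i
        linear_combination (4 * (X : ℝ) - 2 * n i) * this
      have e2 : w i ^ 2 * ∑ m ∈ range M, Sm (R i σ0) (θ σ0) (m + 1) ^ 2 =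
          ∑ m ∈ range M, (w i * Sm (R i σ0) (θ σ0) (m + 1)) ^ 2 := by
        rw [Finset.mul_sum]
        exact Finset.sum_congr rfl fun m _ => by ring
      rw [e1, e2] at h2
      have h3 : (n i : ℝ) ≤ X := by exact_mod_cast hnX i
      linarith
    calc (F.card : ℝ) * (2 * X) = ∑ _i ∈ F, (2 * (X : ℝ)) := by
          rw [Finset.sum_const, nsmul_eq_mul]
      _ ≤ _ := Finset.sum_le_sum this
  have hXpos : (0 : ℝ) < X := by exact_mod_cast hX1
  have hρ : 0 < ρ ^ (4 * X) := by positivity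
  have hMle : (M : ℝ) ≤ 4 * X := by linarith
  have h5 : (F.card : ℝ) * (2 * X) ≤ 4 * X * (12 * (4 * X) * B / ρ ^ (4 * X)) :=
    (hlow.trans hup).trans (mul_le_mul_of_nonneg_right hMle (by positivity))
  have h6 : (F.card : ℝ) ≤ 96 * X * B / ρ ^ (4 * X) := by
    have e : 4 * (X : ℝ) * (12 * (4 * X) * B / ρ ^ (4 * X)) =
        (96 * X * B / ρ ^ (4 * X)) * (2 * X) := by ring
    rw [e] at h5
    exact le_of_mul_le_mul_right h5 (by positivity)
  have h7 : (Fintype.card ι : ℝ) ≤ 2 * F.card := by exact_mod_cast hFcard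
  calc (Fintype.card ι : ℝ) ≤ 2 * F.card := h7
    _ ≤ 2 * (96 * X * B / ρ ^ (4 * X)) := by linarith
    _ = 192 * X * B / ρ ^ (4 * X) := by ring

end MP225LS
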